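import Pool.Agent.T2H95.NJ.Pig

/-!
# There are countably many algebraic functions over the algebraic numbers
-/

set_option autoImplicit false

open Filter Topology MvPolynomial

noncomputable section

namespace Pool.Agent.T2H95.NJ

/-- the algebraic functions on `B` which satisfy the equation `P`, extended by zero -/
def AF (B : Set ℂ) (P : MvPolynomial (Fin 2) ℂ) : Set (ℂ → ℂ) :=
  {f | AnalyticOnNhd ℂ f B ∧ (∀ z ∈ B, eval ![z, f z] P = 0) ∧ ∀ z ∉ B, f z = 0}

theorem zeros_countable {B : Set ℂ} (hc : IsPreconnected B) {f : ℂ → ℂ} (hf : AnalyticOnNhd ℂ f B)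
    (hne : ∃ z ∈ B, f z ≠ 0) : {z | z ∈ B ∧ f z = 0}.Countable := by
  apply (HereditarilyLindelofSpace.isLindelof _).countable_of_isDiscrete
  rw [isDiscrete_iff_nhdsNE]
  intro c hcU
  rw [← _root_.disjoint_iff, Filter.disjoint_principal_right]
  rcases (hf c hcU.1).eventually_eq_zero_or_eventually_ne_zero with h | h
  · obtain ⟨z, hz, hz0⟩ := hne
    exact absurd (hf.eqOn_zero_of_preconnected_of_eventuallyEq_zero hc hcU.1 h hz) hz0
  · filter_upwards [h] with z hz
    intro hz'
    exact hz hz'.2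

theorem qy_zero_finite {P : MvPolynomial (Fin 2) ℂ} (hP : P ≠ 0) : {z : ℂ | qy P z = 0}.Finite := by
  obtain ⟨x, y, hxy⟩ := exists_val hP
  have hne : qx P y ≠ 0 := by
    intro h0
    apply hxy
    rw [← qx_eval, h0, Polynomial.eval_zero]
  refine (Finset.finite_toSet (qx P y).roots.toFinset).subset ?_
  intro w hw
  have hw' : qy P w = 0 := hw
  rw [Finset.mem_coe, Multiset.mem_toFinset, Polynomial.mem_roots hne, Polynomial.IsRoot.def, qx_eval, ← qy_eval, hw',
    Polynomial.eval_zero]

/-- an equation has finitely many solutions -/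
theorem AF_finite {B : Set ℂ} (hB : IsOpen B) (hc : IsPreconnected B) (hne : B.Nonempty)
    {P : MvPolynomial (Fin 2) ℂ} (hP : P ≠ 0) : (AF B P).Finite := by
  classical
  by_contra hinf
  obtain ⟨t, ht, htc⟩ := Set.Infinite.exists_subset_card_eq hinf (P.totalDegree + 1)
  -- the bad points
  have hbad : ((⋃ x ∈ (t ×ˢ t : Finset _), {z | z ∈ B ∧ x.1 ≠ x.2 ∧ x.1 z - x.2 z = 0}) ∪ {z : ℂ | qy P z = 0}).Countable := by
    refine Set.Countable.union ?_ (qy_zero_finite hP).countable
    refine Set.Countable.biUnion (Finset.countable_toSet _) ?_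
    rintro ⟨f, g⟩ hfg
    rw [Finset.mem_coe, Finset.mem_product] at hfg
    have hf : f ∈ AF B P := ht hfg.1
    have hg : g ∈ AF B P := ht hfg.2
    by_cases he : f = g
    · convert Set.countable_empty
      ext z
      simp [he]
    · have hex : ∃ z ∈ B, f z - g z ≠ 0 := by
        by_contra hcon
        push Not at hcon
        apply he
        funext z
        by_cases hz : z ∈ B
        · exact sub_eq_zero.1 (hcon z hz)
        · rw [hf.2.2 z hz, hg.2.2 z hz]
      refine (zeros_countable hc (f := fun z => f z - g z) (hf.1.sub hg.1) hex).mono ?_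
      rintro z ⟨h1, -, h2⟩
      exact ⟨h1, h2⟩
  obtain ⟨z, hz, hzb⟩ : ∃ z ∈ B, z ∉ ((⋃ x ∈ (t ×ˢ t : Finset _), {z | z ∈ B ∧ x.1 ≠ x.2 ∧ x.1 z - x.2 z = 0}) ∪
      {z : ℂ | qy P z = 0}) := by
    by_contra hcon
    push Not at hcon
    exact not_countable_of_open hB hne (hbad.mono fun z hz => hcon z hz)
  rw [Set.mem_union, not_or] at hzb
  obtain ⟨h1, h2⟩ := hzb
  have hq : qy P z ≠ 0 := h2
  have hmaps : Set.MapsTo (fun f : ℂ → ℂ => f z) (↑t : Set (ℂ → ℂ)) (↑((qy P z).roots.toFinset) : Set ℂ) := by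
    intro f hf
    rw [Finset.mem_coe, Multiset.mem_toFinset, Polynomial.mem_roots hq, Polynomial.IsRoot.def, qy_eval]
    exact (ht hf).2.1 z hz
  have hcard : ((qy P z).roots.toFinset).card < t.card := by
    rw [htc]
    have h1 : ((qy P z).roots.toFinset).card ≤ (qy P z).roots.card := Multiset.toFinset_card_le _
    have h2 := Polynomial.card_roots' (qy P z)
    have h3 := qy_deg P z
    omega
  obtain ⟨f, hf, g, hg, hfg, he⟩ := Finset.exists_ne_map_eq_of_card_lt_of_maps_to hcard hmaps
  apply h1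
  rw [Set.mem_iUnion₂]
  exact ⟨(f, g), Finset.mem_product.2 ⟨hf, hg⟩, hz, hfg, sub_eq_zero.2 he⟩

/-- polynomials with algebraic coefficients -/
def PA : Set (MvPolynomial (Fin 2) ℂ) := {P | ∀ m, IsAlgebraic ℚ (P.coeff m)}

theorem PA_countable : PA.Countable := by
  let K : IntermediateField ℚ ℂ := algebraicClosure ℚ ℂ
  have hK : Countable K := by
    have h1 : {x : ℂ | IsAlgebraic ℚ x}.Countable := Algebraic.countable ℚ ℂ
    have h2 : (K : Set ℂ) = {x : ℂ | IsAlgebraic ℚ x} := by
      ext x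
      exact mem_algebraicClosure_iff'.trans ⟨fun h => h.isAlgebraic, fun h => h.isIntegral⟩
    have h3 : (K : Set ℂ).Countable := by rw [h2]; exact h1
    exact h3.to_subtype
  have hM : Countable (MvPolynomial (Fin 2) K) := by
    rw [← Cardinal.mk_le_aleph0_iff]
    refine MvPolynomial.cardinalMk_le_max.trans ?_
    refine max_le (max_le ?_ ?_) le_rfl
    · exact Cardinal.mk_le_aleph0
    · exact Cardinal.mk_le_aleph0
  refine (Set.countable_range (MvPolynomial.map (σ := Fin 2) (algebraMap K ℂ))).mono ?_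
  intro P hP
  rw [MvPolynomial.mem_range_map_iff_coeffs_subset]
  intro c hc
  obtain ⟨m, -, rfl⟩ := MvPolynomial.mem_coeffs_iff.1 hc
  exact ⟨⟨P.coeff m, (hP m).isIntegral⟩, rfl⟩

/-- the algebraic functions on `B` over the algebraic numbers, extended by zero -/
def AFA (B : Set ℂ) : Set (ℂ → ℂ) := ⋃ P ∈ {P ∈ PA | P ≠ 0}, AF B P

theorem AFA_countable {B : Set ℂ} (hB : IsOpen B) (hc : IsPreconnected B) (hne : B.Nonempty) : (AFA B).Countable :=
  (PA_countable.mono fun _ hP => hP.1).biUnion fun _ hP => (AF_finite hB hc hne hP.2).countable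

end Pool.Agent.T2H95.NJ
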