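import Pool.Agent.T2H95.NJ.PairA

/-!
# Algebraic curves in the power of the upper half-plane
-/

set_option autoImplicit false

open Filter Topology MvPolynomial

noncomputable section

namespace Pool.Agent.T2H95.NJ

open Pool.Agent.Y685 Pool.Agent.Y776 Pool.Agent.Y776.AxJ
open Pool.Agent.Y776.Cv (FInd)
open Pool.Agent.Y776.Fam (IndC AlgOver)

variable {U : Set ℂ} {n s : ℕ} {τ : Fin n → ℂ → ℂ} {e : Fin s → Fin n}

/-- an algebraic curve in the power of the upper half-plane, on no modular subvariety -/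
structure Crv (U : Set ℂ) {n s : ℕ} (τ : Fin n → ℂ → ℂ) (e : Fin s → Fin n) : Prop where
  op : IsOpen U
  conn : IsPreconnected U
  ne : U.Nonempty
  an : ∀ i, AnalyticOnNhd ℂ (τ i) U
  im : ∀ i, ∀ z ∈ U, 0 < (τ i z).im
  nc : ∀ i c, ∃ z ∈ U, τ i z ≠ c
  alg : ∀ i, ∃ P : MvPolynomial (Fin 2) ℂ, P ≠ 0 ∧ ∀ z ∈ U, eval ![z, τ i z] P = 0
  rat : ∀ i k, i ≠ k → ∀ p q r s : ℚ, p * s - q * r ≠ 0 → ∃ z ∈ U, τ k z * ((r : ℂ) * τ i z + s) ≠ (p : ℂ) * τ i z + q
  lin : ∀ (m : Fin s → ℤ) (c : ℂ), (∀ z ∈ U, ∑ k, (m k : ℂ) * τ (e k) z = c) → m = 0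

/-- the functions `2 π i τ_(e k)` -/
def wv (τ : Fin n → ℂ → ℂ) (e : Fin s → Fin n) (k : Fin s) (z : ℂ) : ℂ := 2 * (Real.pi : ℂ) * Complex.I * τ (e k) z

theorem Crv.ji (h : Crv U τ e) (i k : Fin n) (hik : i ≠ k) : FInd U (fun (m : Fin 2) (z : ℂ) => jf (τ (![i, k] m) z)) := by
  intro Q hQ
  by_contra hne
  choose P hP0 hP using h.alg
  have hPr : Pr U (fun m => τ (![i, k] m)) (⋃ i, ((P i).coeffs : Set ℂ)) :=
    { op := h.op
      conn := h.conn
      ne := h.ne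
      an := fun m => h.an _
      im := fun m => h.im _
      nc := fun m => h.nc _
      gc := Set.countable_iUnion fun i => Set.Finite.countable (Finset.finite_toSet _)
      alg := fun m F hF => ⟨P (![i, k] m), hP0 _, fun c hc => hF (Set.mem_iUnion.2 ⟨_, hc⟩), hP _⟩ }
  obtain ⟨p, q, r, s', hdet, hrel⟩ := hPr.rational hne hQ
  obtain ⟨z, hz, hz'⟩ := h.rat i k hik p q r s' hdet
  exact hz' (hrel z hz)

theorem Crv.fmj (h : Crv U τ e) : Fmj U τ (wv τ e) where
  op := h.op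
  conn := h.conn
  ne := h.ne
  ta := h.an
  im := h.im
  nc := h.nc
  ji := h.ji
  wa := fun k z hz => analyticAt_const.mul (h.an _ z hz)
  wi := by
    intro m c hm
    refine h.lin m (c / (2 * (Real.pi : ℂ) * Complex.I)) fun z hz => ?_
    rw [eq_div_iff Complex.two_pi_I_ne_zero, ← hm z hz, Finset.sum_mul]
    refine Finset.sum_congr rfl fun k _ => ?_
    rw [wv]
    ring

/-- the functions `j`, `j'`, `j''` -/
def b3 : Fin 3 → ℂ → ℂ := ![jf, deriv jf, deriv (deriv jf)]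

theorem b3_an (m : Fin 3) : AnalyticOnNhd ℂ (b3 m) {t : ℂ | 0 < t.im} := by
  fin_cases m
  · exact an_j
  · exact an_dj
  · exact an_ddj

/-- the functions `j (τ_i)`, `j' (τ_i)`, `j'' (τ_i)` and `exp (2 π i τ_(e k))` -/
def vl (τ : Fin n → ℂ → ℂ) (e : Fin s → Fin n) : (Fin n × Fin 3) ⊕ Fin s → ℂ → ℂ :=
  Sum.elim (fun p z => b3 p.2 (τ p.1 z)) (fun k z => Complex.exp (wv τ e k z))

theorem vl_an {z : ℂ} (han : ∀ i, AnalyticAt ℂ (τ i) z) (him : ∀ i, 0 < (τ i z).im) (k : (Fin n × Fin 3) ⊕ Fin s) :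
    AnalyticAt ℂ (vl τ e k) z := by
  rcases k with ⟨i, m⟩ | k
  · exact AnalyticAt.fun_comp (g := b3 m) (f := τ i) (b3_an m _ (him i)) (han i)
  · exact (analyticAt_const.mul (han _)).cexp

/-- **the functions are independent** -/
theorem Crv.loc (h : Crv U τ e) (hn : 0 < n) : ∀ t ∈ U, Pool.Agent.Y124.LocInd (vl τ e) t := by
  classical
  choose P hP0 hP using h.alg
  refine loc_all h.fmj hn (y := vl τ e) (fun k z hz => vl_an (fun i => h.an i z hz) (fun i => h.im i z hz) k)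
    (by simp; ring) (G := {(Real.pi : ℂ), Complex.I} ∪ ⋃ i, ((P i).coeffs : Set ℂ)) ?_ ?_
  · exact (by exact (Set.toFinite _).countable : ({(Real.pi : ℂ), Complex.I} : Set ℂ).Countable).union
      (Set.countable_iUnion fun i => Set.Finite.countable (Finset.finite_toSet _))
  intro F hF z hz htr k
  set K := clo F (insert z (Set.range fun k => vl τ e k z)) with hK
  have mpi : (Real.pi : ℂ) ∈ K := base_clo (hF (Or.inl (Or.inl rfl)))
  have mI : Complex.I ∈ K := base_clo (hF (Or.inl (Or.inr rfl)))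
  have m2 : (2 : ℂ) ∈ K := by
    have := natCast_mem K 2
    exact_mod_cast this
  have mO : ∀ k, vl τ e k z ∈ K := fun k => subset_clo (Or.inr ⟨k, rfl⟩)
  have mt : ∀ i, τ i z ∈ K := by
    intro i
    have h1 : AlgOver F U (τ i) := ⟨P i, hP0 i, fun c hc => hF (Or.inr (Set.mem_iUnion.2 ⟨i, hc⟩)), hP i⟩
    have h2 := h1.mem le_rfl hz htr
    exact clo_le (fun s hs => by
      rw [Set.mem_singleton_iff.1 hs]
      exact subset_clo (Or.inl rfl)) h2
  rcases k with ⟨i, m⟩ | k | k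
  · fin_cases m
    · exact mt i
    · exact mO (Sum.inl (i, 0))
    · exact mO (Sum.inl (i, 1))
    · exact mO (Sum.inl (i, 2))
  · exact mul_mem (mul_mem (mul_mem m2 mpi) mI) (mt _)
  · exact mO (Sum.inr k)

end Pool.Agent.T2H95.NJ
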