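import Pool.Agent.T2H95.NJ.MobB

/-!
# A relation between `J (w)` and `J (g w)`: the matrix `g` is rational up to a factor
-/

set_option autoImplicit false

open Filter Topology
open scoped ComplexConjugate

namespace Pool.Agent.T2H95.NJ

variable {J : ℂ → ℂ} {N : Set ℂ} {a b c d : ℂ} {W : Set ℂ} {Q : MvPolynomial (Fin 2) ℂ}

theorem hf_cont (a b c d : ℂ) : Continuous (hf a b c d) := by
  unfold hf
  refine Complex.continuous_im.comp ?_
  refine Continuous.mul (by fun_prop) ?_
  exact Complex.continuous_conj.comp (by fun_prop)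

theorem Dt.le_real (h : Dt J N a b c d W Q) (x : ℝ) : hf a b c d (x : ℂ) ≤ 0 := by
  refine Rat.denseRange_cast.induction_on (p := fun x : ℝ => hf a b c d (x : ℂ) ≤ 0) x ?_ ?_
  · exact isClosed_le ((hf_cont a b c d).comp Complex.continuous_ofReal) continuous_const
  · intro q
    have := h.ratl q
    simpa using this

theorem hf_split (a b c d w : ℂ) : hf a b c d w = hf a b c d (w.re : ℂ) + (a * conj c).im * w.im ^ 2 +
    (a * conj d - b * conj c).re * w.im := by
  rw [hf_real a b c d w, hf_real a b c d (w.re : ℂ), Complex.ofReal_re, Complex.ofReal_im]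
  ring

theorem Dt.ge_inv (h : Dt J N a b c d W Q) (x : ℝ) : 0 ≤ hf d (-b) (-c) a (x : ℂ) := by
  by_contra hcon
  push Not at hcon
  have hα := h.infty
  -- the coefficient is positive
  obtain ⟨w₀, hw₀⟩ := h.ne
  obtain ⟨h1, h2⟩ := h.dom w₀ hw₀
  rw [hf_split] at h2
  have h3 := h.le_real w₀.re
  have hm : 0 < (a * conj d - b * conj c).re := by
    by_contra hm
    push Not at hm
    have e1 : (a * conj c).im * w₀.im ^ 2 ≤ 0 := mul_nonpos_of_nonpos_of_nonneg hα (sq_nonneg _)
    have e2 : (a * conj d - b * conj c).re * w₀.im ≤ 0 := mul_nonpos_of_nonpos_of_nonneg hm h1.le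
    linarith
  -- the point
  have hne : -c * (x : ℂ) + a ≠ 0 := by
    intro h0
    rw [hf, h0] at hcon
    simp at hcon
  set k : ℂ := (d * x + -b) / (-c * x + a) with hk
  have hki : k.im < 0 := by
    rw [hk, div_im_eq]
    exact div_neg_of_neg_of_pos hcon (Complex.normSq_pos.2 hne)
  have e1 : a * k + b = x * ((a * d - b * c) / (-c * x + a)) := by
    rw [← mul_div_assoc (x : ℂ) (a * d - b * c) (-c * x + a), eq_div_iff hne, add_mul, mul_assoc, hk,
      div_mul_cancel₀ _ hne]
    ring
  have e2 : c * k + d = (a * d - b * c) / (-c * x + a) := by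
    rw [eq_div_iff hne, add_mul, mul_assoc, hk, div_mul_cancel₀ _ hne]
    ring
  have h4 : hf a b c d k = 0 := by
    rw [hf, e1, e2, mul_assoc, Complex.mul_conj, ← Complex.ofReal_mul, Complex.ofReal_im]
  rw [hf_split] at h4
  have h5 := h.le_real k.re
  have e3 : (a * conj c).im * k.im ^ 2 ≤ 0 := mul_nonpos_of_nonpos_of_nonneg hα (sq_nonneg _)
  have e4 : (a * conj d - b * conj c).re * k.im < 0 := mul_neg_of_pos_of_neg hm hki
  linarith

theorem real_of_im {z : ℂ} (h : z.im = 0) : z = ((z.re : ℝ) : ℂ) := by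
  apply Complex.ext
  · simp
  · simp [h]

/-- **the matrix is real up to a factor** -/
theorem Dt.real (h : Dt J N a b c d W Q) : ∃ (l : ℂ) (a' b' c' d' : ℝ), l ≠ 0 ∧ a = l * a' ∧ b = l * b' ∧ c = l * c' ∧
    d = l * d' := by
  obtain ⟨W', Q', h'⟩ := h.swap
  have hz : ∀ q : ℚ, hf d (-b) (-c) a (q : ℂ) = 0 := by
    intro q
    refine le_antisymm (h'.ratl q) ?_
    have := h.ge_inv q
    simpa using this
  have z0 := hz 0
  have z1 := hz 1
  have z2 := hz (-1)
  rw [hf_real] at z0 z1 z2
  simp only [Rat.cast_zero, Rat.cast_one, Rat.cast_neg, Complex.zero_re, Complex.zero_im, Complex.one_re, Complex.one_im,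
    Complex.neg_re, Complex.neg_im] at z0 z1 z2
  have y0 : (-b * conj a).im = 0 := by nlinarith
  have y1 : (d * conj (-c)).im = 0 := by nlinarith
  have y2 : (d * conj a + -b * conj (-c)).im = 0 := by nlinarith
  have x0 : (b * conj a).im = 0 := by
    have : -b * conj a = -(b * conj a) := by ring
    rw [this, Complex.neg_im] at y0
    linarith
  have x1 : (d * conj c).im = 0 := by
    have : d * conj (-c) = -(d * conj c) := by rw [map_neg]; ring
    rw [this, Complex.neg_im] at y1
    linarith
  have x2 : (d * conj a + b * conj c).im = 0 := by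
    have : d * conj a + -b * conj (-c) = d * conj a + b * conj c := by rw [map_neg]; ring
    rwa [this] at y2
  by_cases ha : a = 0
  · have hc : c ≠ 0 := by
      rintro rfl
      apply h.det
      rw [ha]
      ring
    rw [ha, map_zero, mul_zero, zero_add] at x2
    have r1 : (d / c).im = 0 := by rw [div_im_eq, x1, zero_div]
    have r2 : (b / c).im = 0 := by rw [div_im_eq, x2, zero_div]
    refine ⟨c, 0, (b / c).re, 1, (d / c).re, hc, ?_, ?_, ?_, ?_⟩
    · rw [ha]; simp
    · rw [← real_of_im r2, mul_div_cancel₀ _ hc]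
    · simp
    · rw [← real_of_im r1, mul_div_cancel₀ _ hc]
  · set C := c / a with hC
    set D := d / a with hD
    set B := b / a with hB
    have ec : c = a * C := by rw [hC, mul_div_cancel₀ _ ha]
    have ed : d = a * D := by rw [hD, mul_div_cancel₀ _ ha]
    have eb : b = a * B := by rw [hB, mul_div_cancel₀ _ ha]
    have rB : B.im = 0 := by rw [hB, div_im_eq, x0, zero_div]
    have hn : 0 < Complex.normSq a := Complex.normSq_pos.2 ha
    have s1 : D.im * C.re - D.re * C.im = 0 := by
      have : d * conj c = (Complex.normSq a : ℂ) * (D * conj C) := by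
        rw [ed, ec, map_mul, ← Complex.mul_conj]
        ring
      rw [this, Complex.im_ofReal_mul] at x1
      rcases mul_eq_zero.1 x1 with h0 | h0
      · exact absurd h0 hn.ne'
      · rw [Complex.mul_im, Complex.conj_re, Complex.conj_im] at h0
        linarith
    have s2 : D.im - B.re * C.im = 0 := by
      have : d * conj a + b * conj c = (Complex.normSq a : ℂ) * (D + B * conj C) := by
        rw [ed, eb, ec, map_mul, ← Complex.mul_conj]
        ring
      rw [this, Complex.im_ofReal_mul] at x2
      rcases mul_eq_zero.1 x2 with h0 | h0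
      · exact absurd h0 hn.ne'
      · rw [Complex.add_im, Complex.mul_im, Complex.conj_re, Complex.conj_im, rB] at h0
        linarith
    have rC : C.im = 0 := by
      by_contra hne
      apply h.det
      have s3 : D.im = B.re * C.im := by linarith
      have s4 : D.re = B.re * C.re := by
        rw [s3] at s1
        have : C.im * (B.re * C.re - D.re) = 0 := by linear_combination s1
        have := (mul_eq_zero.1 this).resolve_left hne
        linarith
      have s5 : D = B * C := by
        apply Complex.ext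
        · rw [Complex.mul_re, rB, s4]; ring
        · rw [Complex.mul_im, rB, s3]; ring
      rw [ed, eb, ec, s5]
      ring
    have rD : D.im = 0 := by rw [rC] at s2; linarith
    refine ⟨a, 1, B.re, C.re, D.re, ha, by simp, ?_, ?_, ?_⟩
    · rw [← real_of_im rB]; exact eb
    · rw [← real_of_im rC]; exact ec
    · rw [← real_of_im rD]; exact ed

/-- rational quotients -/
theorem Dt.quot (h : Dt J N a b c d W Q) :
    ∃ r1 r2 r3 : ℚ, a ^ 2 = r1 * (a * d - b * c) ∧ a * c = r2 * (a * d - b * c) ∧ c ^ 2 = r3 * (a * d - b * c) := by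
  obtain ⟨l, a', b', c', d', hl, ea, eb, ec, ed⟩ := h.real
  have hn : 0 < Complex.normSq l := Complex.normSq_pos.2 hl
  have hform : ∀ w : ℂ, hf a b c d w = Complex.normSq l * ((a' * d' - b' * c') * w.im) := by
    intro w
    have e1 : (a * w + b) * conj (c * w + d) =
        (Complex.normSq l : ℂ) * (((a' : ℂ) * w + b') * conj ((c' : ℂ) * w + d')) := by
      rw [ea, eb, ec, ed, ← Complex.mul_conj]
      simp only [map_add, map_mul, Complex.conj_ofReal]
      ring
    rw [hf, e1, Complex.im_ofReal_mul]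
    congr 1
    simp only [Complex.mul_im, Complex.mul_re, Complex.add_re, Complex.add_im, Complex.conj_re, Complex.conj_im,
      Complex.ofReal_re, Complex.ofReal_im]
    ring
  have hdet : 0 < a' * d' - b' * c' := by
    obtain ⟨w₀, hw₀⟩ := h.ne
    obtain ⟨h1, h2⟩ := h.dom w₀ hw₀
    rw [hform] at h2
    have h3 := (mul_pos_iff_of_pos_left hn).1 h2
    exact (mul_pos_iff_of_pos_right h1).1 h3
  have hV : ∀ w ∈ {w : ℂ | 0 < w.im}, 0 < w.im ∧ 0 < hf a b c d w := by
    intro w hw
    refine ⟨hw, ?_⟩
    rw [hform]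
    exact mul_pos hn (mul_pos hdet hw)
  have hrel := ext_rel h.jp (convex_halfSpace_im_gt 0) hV h.op (by
    obtain ⟨w₀, hw₀⟩ := h.ne
    exact ⟨w₀, hw₀, (h.dom w₀ hw₀).1⟩) h.rel
  refine pig h.jp h.det (C := {w : ℂ | 0 < w.im}) (isOpen_lt continuous_const Complex.continuous_im)
    ⟨Complex.I, by simp⟩ (fun w hw => hw) (fun w hw => ?_) (fun w hw => (hf_pos_iff.1 (hV w hw).2).1)
    (fun w hw => (hf_pos_iff.1 (hV w hw).2).2) h.q0 hrel
  show 0 < (w + 1).im
  have : 0 < w.im := hw
  simpa using this

/-- **The matrix is rational up to a factor.** -/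
theorem Dt.rational (h : Dt J N a b c d W Q) : ∃ (l : ℂ) (a' b' c' d' : ℚ), l ≠ 0 ∧ a = l * a' ∧ b = l * b' ∧
    c = l * c' ∧ d = l * d' := by
  have hdet := h.det
  obtain ⟨r1, r2, r3, f1, f2, f3⟩ := h.quot
  obtain ⟨W₁, h₁⟩ := h.comp 0 (-1) 1 0 (by norm_num)
  obtain ⟨t1, t2, t3, g1, g2, g3⟩ := h₁.quot
  obtain ⟨W₂, h₂⟩ := h.comp 1 0 1 1 (by norm_num)
  obtain ⟨u1, u2, u3, k1, k2, k3⟩ := h₂.quot
  push_cast at g1 g2 g3 k1 k2 k3
  have m1 : 2 * (a * b) = (u1 - r1 - t1) * (a * d - b * c) := by linear_combination k1 - f1 - g1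
  have m2 : 2 * (c * d) = (u3 - r3 - t3) * (a * d - b * c) := by linear_combination k3 - f3 - g3
  have m3 : 2 * (a * d) = (u2 - r2 - t2 + 1) * (a * d - b * c) := by linear_combination k2 - f2 - g2
  have m4 : 2 * (b * c) = (u2 - r2 - t2 - 1) * (a * d - b * c) := by linear_combination k2 - f2 - g2
  set Δ := a * d - b * c with hΔ
  by_cases ha : a = 0
  · have hc : c ≠ 0 := by
      rintro rfl
      apply hdet
      rw [hΔ, ha]
      ring
    refine ⟨Δ / c, r2, (u2 - r2 - t2 - 1) / 2, r3, (u3 - r3 - t3) / 2, div_ne_zero hdet hc, ?_, ?_, ?_, ?_⟩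
    · rw [div_mul_eq_mul_div, eq_div_iff hc, f2]; ring
    · push_cast
      rw [div_mul_eq_mul_div, eq_div_iff hc]
      linear_combination m4 / 2
    · rw [div_mul_eq_mul_div, eq_div_iff hc]
      linear_combination f3
    · push_cast
      rw [div_mul_eq_mul_div, eq_div_iff hc]
      linear_combination m2 / 2
  · refine ⟨Δ / a, r1, (u1 - r1 - t1) / 2, r2, (u2 - r2 - t2 + 1) / 2, div_ne_zero hdet ha, ?_, ?_, ?_, ?_⟩
    · rw [div_mul_eq_mul_div, eq_div_iff ha]
      linear_combination f1
    · push_cast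
      rw [div_mul_eq_mul_div, eq_div_iff ha]
      linear_combination m1 / 2
    · rw [div_mul_eq_mul_div, eq_div_iff ha]
      linear_combination f2
    · push_cast
      rw [div_mul_eq_mul_div, eq_div_iff ha]
      linear_combination m3 / 2

end Pool.Agent.T2H95.NJ
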