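import Pool.Agent.Y776.AxJ.JFun
import Pool.Agent.Y577.LU.L1
import Pool.Agent.T2H95.NJ.MobC

/-!
# The modular invariant has the properties `JP`
-/

set_option autoImplicit false

open Filter Topology

namespace Pool.Agent.T2H95.NJ

open Pool.Agent.Y685 Pool.Agent.Y776 Pool.Agent.Y776.AxJ
open Pool.Agent.Y776.Fam (countable_zeros exists_notMem)

theorem jf_ne {τ : ℂ} (hτ : 0 < τ.im) (hT : τ ∉ T0) : (LC τ).g₂ ≠ 0 ∧ (LC τ).g₃ ≠ 0 :=
  ⟨(QL_ok (T0_spec.2 τ hτ hT)).p0, (QL_ok (T0_spec.2 τ hτ hT)).q0⟩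

theorem jf_inv (a b c d : ℤ) (h : a * d - b * c = 1) (τ : ℂ) (hτ : 0 < τ.im) :
    jf (((a : ℂ) * τ + b) / ((c : ℂ) * τ + d)) = jf τ := by
  have hC : (a : ℂ) * d - b * c = 1 := by exact_mod_cast h
  have h1 := im_mob (p := a) (q := b) (r := c) (s := d) (by
    have : (a : ℝ) * d - b * c = 1 := by exact_mod_cast h
    rw [this]; exact one_pos) hτ
  have h2 : (c : ℂ) * τ + d ≠ 0 ∧ 0 < (((a : ℂ) * τ + b) / ((c : ℂ) * τ + d)).im := by simpa using h1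
  set τ' := ((a : ℂ) * τ + b) / ((c : ℂ) * τ + d) with hτ'
  have hm : τ' * ((c : ℂ) * τ + d) = (a : ℂ) * τ + b := by rw [hτ', div_mul_cancel₀ _ h2.1]
  have hH : Hm (LC τ') (LC τ) ((c : ℂ) * τ + d) :=
    { c0 := h2.1
      mem := fun x => by
        rw [mem_LC hτ, mem_LC h2.2]
        constructor
        · rintro ⟨k, l, hkl⟩
          refine ⟨k * a - l * b, l * d - k * c, mul_left_cancel₀ h2.1 ?_⟩
          rw [← hkl]
          push_cast
          linear_combination ((l : ℂ) * d - k * c) * hm + (k + l * τ) * hC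
        · rintro ⟨m, n, hmn⟩
          refine ⟨m * d + n * b, m * c + n * a, ?_⟩
          rw [← hmn]
          push_cast
          linear_combination (-(n : ℂ)) * hm }
  have hg2 := hH.g₂
  have hg3 := hH.g₃
  have hne := h2.1
  have hd' := dlf_ne h2.2
  have hd := dlf_ne hτ
  rw [dlf] at hd hd'
  rw [jf, jf]
  rw [div_eq_div_iff hd' hd, hg2, hg3]
  field_simp

/-- the scaling factor -/
theorem exists_scale {A B A' B' : ℂ} (hA : A ≠ 0) (hB : B ≠ 0) (hA' : A' ≠ 0) (hB' : B' ≠ 0)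
    (h : B ^ 2 * A' ^ 3 = B' ^ 2 * A ^ 3) : ∃ c : ℂ, c ≠ 0 ∧ A' = A / c ^ 4 ∧ B' = B / c ^ 6 := by
  obtain ⟨c, hc⟩ := IsAlgClosed.exists_pow_nat_eq (B * A' / (B' * A)) (n := 2) (by norm_num)
  have hc0 : c ≠ 0 := by
    rintro rfl
    rw [zero_pow two_ne_zero] at hc
    exact (div_ne_zero (mul_ne_zero hB hA') (mul_ne_zero hB' hA)) hc.symm
  have h2 : c ^ 2 * (B' * A) = B * A' := by rw [hc, div_mul_cancel₀ _ (mul_ne_zero hB' hA)]
  have h4 : A' * c ^ 4 = A := by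
    have e1 : (A' * c ^ 4 - A) * (B' ^ 2 * A ^ 2) = 0 := by
      linear_combination (A' * (c ^ 2 * (B' * A) + B * A')) * h2 + h
    exact sub_eq_zero.1 ((mul_eq_zero.1 e1).resolve_right (mul_ne_zero (pow_ne_zero 2 hB') (pow_ne_zero 2 hA)))
  have h6 : B' * c ^ 6 = B := by
    have e1 : (B' * c ^ 6 - B) * (A * A') = 0 := by
      linear_combination (A' * c ^ 4) * h2 + (B * A') * h4
    exact sub_eq_zero.1 ((mul_eq_zero.1 e1).resolve_right (mul_ne_zero hA hA'))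
  refine ⟨c, hc0, ?_, ?_⟩
  · rw [eq_div_iff (pow_ne_zero 4 hc0), h4]
  · rw [eq_div_iff (pow_ne_zero 6 hc0), h6]

theorem jf_sep (τ τ' : ℂ) (hτ : 0 < τ.im) (hτ' : 0 < τ'.im) (hT : τ ∉ T0) (hT' : τ' ∉ T0) (h : jf τ = jf τ') :
    ∃ a b c d : ℤ, a * d - b * c ≠ 0 ∧ τ' * ((c : ℂ) * τ + d) = (a : ℂ) * τ + b := by
  obtain ⟨n2, n3⟩ := jf_ne hτ hT
  obtain ⟨n2', n3'⟩ := jf_ne hτ' hT'
  have hd := dlf_ne hτ
  have hd' := dlf_ne hτ'
  rw [dlf] at hd hd'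
  have hrel : (LC τ).g₃ ^ 2 * (LC τ').g₂ ^ 3 = (LC τ').g₃ ^ 2 * (LC τ).g₂ ^ 3 := by
    rw [jf, jf, div_eq_div_iff hd hd'] at h
    have : (46656 : ℂ) * ((LC τ).g₃ ^ 2 * (LC τ').g₂ ^ 3 - (LC τ').g₃ ^ 2 * (LC τ).g₂ ^ 3) = 0 := by
      linear_combination h
    exact sub_eq_zero.1 ((mul_eq_zero.1 this).resolve_left (by norm_num))
  obtain ⟨c, hc, e2, e3⟩ := exists_scale n2 n3 n2' n3' hrel
  have hH := Hm_scl (LC τ) hc
  have hlat : (scl (LC τ) c hc).lattice = (LC τ').lattice := by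
    apply Pool.Agent.Y577.LU.lat_unique
    · rw [hH.g₂, e2]
    · rw [hH.g₃, e3]
  have m1 : (1 : ℂ) ∈ (LC τ').lattice := (mem_LC hτ').2 ⟨1, 0, by push_cast; ring⟩
  have m2 : τ' ∈ (LC τ').lattice := (mem_LC hτ').2 ⟨0, 1, by push_cast; ring⟩
  rw [← hlat] at m1 m2
  have p1 : c⁻¹ * 1 ∈ (LC τ).lattice := (hH.mem _).1 (by rwa [mul_inv_cancel_left₀ hc])
  have p2 : c⁻¹ * τ' ∈ (LC τ).lattice := (hH.mem _).1 (by rwa [mul_inv_cancel_left₀ hc])
  obtain ⟨d, e, h1⟩ := (mem_LC hτ).1 p1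
  obtain ⟨b, a, h2⟩ := (mem_LC hτ).1 p2
  rw [mul_one] at h1
  have hrel2 : τ' * ((e : ℂ) * τ + d) = (a : ℂ) * τ + b := by
    have : ((e : ℂ) * τ + d) = c⁻¹ := by rw [← h1]; ring
    rw [this]
    linear_combination -h2
  refine ⟨a, b, e, d, ?_, hrel2⟩
  intro h0
  have h0C : (a : ℂ) * d - b * e = 0 := by exact_mod_cast h0
  have hne : (e : ℂ) * τ + d ≠ 0 := by
    have : ((e : ℂ) * τ + d) = c⁻¹ := by rw [← h1]; ring
    rw [this]
    exact inv_ne_zero hc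
  -- `τ'` would be rational
  have k1 : τ' * d = b := by
    have : (τ' * d - b) * ((e : ℂ) * τ + d) = 0 := by linear_combination (d : ℂ) * hrel2 + τ * h0C
    exact sub_eq_zero.1 ((mul_eq_zero.1 this).resolve_right hne)
  have k2 : τ' * e = a := by
    have : (τ' * e - a) * ((e : ℂ) * τ + d) = 0 := by linear_combination (e : ℂ) * hrel2 - h0C
    exact sub_eq_zero.1 ((mul_eq_zero.1 this).resolve_right hne)
  have i1 := congrArg Complex.im k1
  have i2 := congrArg Complex.im k2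
  simp at i1 i2
  rcases i1 with i1 | i1
  · exact absurd i1 hτ'.ne'
  · rcases i2 with i2 | i2
    · exact absurd i2 hτ'.ne'
    · apply hne
      rw [i1, i2]
      push_cast
      ring

theorem jf_fib (v : ℂ) : {τ : ℂ | 0 < τ.im ∧ jf τ = v}.Countable := by
  have hne : ∃ z ∈ {τ : ℂ | 0 < τ.im}, jf z - v ≠ 0 := by
    by_contra hcon
    push Not at hcon
    obtain ⟨σ, hσ, hσT⟩ := exists_notMem isOpen_H ⟨Complex.I, by simp⟩ T0_spec.1
    have h1 : deriv jf σ = 0 := by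
      have h2 : jf =ᶠ[𝓝 σ] fun _ => v := by
        filter_upwards [isOpen_H.mem_nhds hσ] with z hz
        exact sub_eq_zero.1 (hcon z hz)
      rw [h2.deriv_eq, deriv_const]
    rw [deriv_j hσ] at h1
    obtain ⟨n2, n3⟩ := jf_ne hσ hσT
    exact (div_ne_zero (mul_ne_zero (mul_ne_zero (mul_ne_zero (by norm_num) be0_ne) (pow_ne_zero 2 n2)) n3)
      (dlf_ne hσ)) h1
  have h := countable_zeros (U := {τ : ℂ | 0 < τ.im}) preconn_H (f := fun z => jf z - v)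
    (an_j.sub analyticOnNhd_const) hne
  refine h.mono ?_
  rintro τ ⟨h1, h2⟩
  exact ⟨h1, sub_eq_zero.2 h2⟩

/-- the modular invariant -/
theorem jpj : JP jf T0 where
  an := an_j
  inv := jf_inv
  cnt := T0_spec.1
  sep := jf_sep
  fib := jf_fib

end Pool.Agent.T2H95.NJ
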