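import Pool.Agent.T2H95.NJ.Pig

/-!
# A relation between `J (w)` and `J (g w)`: the cusp `∞` is not mapped into the upper half-plane
-/

set_option autoImplicit false

open Filter Topology
open scoped ComplexConjugate

namespace Pool.Agent.T2H95.NJ

variable {J : ℂ → ℂ} {N : Set ℂ}

/-- the hermitian form of the preimage of the upper half-plane -/
noncomputable def hf (a b c d w : ℂ) : ℝ := ((a * w + b) * conj (c * w + d)).im

theorem div_im_eq {X Y : ℂ} : (X / Y).im = (X * conj Y).im / Complex.normSq Y := by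
  rw [Complex.div_im, Complex.mul_im, Complex.conj_re, Complex.conj_im]
  ring

theorem hf_pos_iff {a b c d w : ℂ} : 0 < hf a b c d w ↔ c * w + d ≠ 0 ∧ 0 < ((a * w + b) / (c * w + d)).im := by
  constructor
  · intro h
    have hne : c * w + d ≠ 0 := by
      intro h0
      rw [hf, h0] at h
      simp at h
    refine ⟨hne, ?_⟩
    rw [div_im_eq]
    exact div_pos h (Complex.normSq_pos.2 hne)
  · rintro ⟨hne, h⟩
    rw [div_im_eq] at h
    exact (div_pos_iff_of_pos_right (Complex.normSq_pos.2 hne)).1 h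

/-- the relation -/
noncomputable def Rl (J : ℂ → ℂ) (Q : MvPolynomial (Fin 2) ℂ) (a b c d w : ℂ) : ℂ :=
  MvPolynomial.eval ![J w, J ((a * w + b) / (c * w + d))] Q

theorem Rl_an (h : JP J N) (Q : MvPolynomial (Fin 2) ℂ) {a b c d w : ℂ} (hw : 0 < w.im) (hg : 0 < hf a b c d w) :
    AnalyticAt ℂ (Rl J Q a b c d) w := by
  obtain ⟨hne, him⟩ := hf_pos_iff.1 hg
  have h1 : AnalyticAt ℂ (fun w : ℂ => (a * w + b) / (c * w + d)) w := by
    refine AnalyticAt.div ?_ ?_ hne
    · exact (analyticAt_const.mul analyticAt_id).add analyticAt_const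
    · exact (analyticAt_const.mul analyticAt_id).add analyticAt_const
  have h2 : AnalyticAt ℂ (fun w : ℂ => J ((a * w + b) / (c * w + d))) w :=
    AnalyticAt.fun_comp (g := J) (f := fun w : ℂ => (a * w + b) / (c * w + d)) (h.an _ him) h1
  have h3 : AnalyticAt ℂ (fun w : ℂ => MvPolynomial.aeval (fun i => (![J w, J ((a * w + b) / (c * w + d))] : Fin 2 → ℂ) i) Q) w := by
    refine AnalyticAt.aeval_mvPolynomial (fun i => ?_) Q
    fin_cases i
    · exact h.an w hw
    · exact h2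
  exact h3

theorem ext_rel (h : JP J N) {Q : MvPolynomial (Fin 2) ℂ} {a b c d : ℂ} {C : Set ℂ} (hC : Convex ℝ C)
    (hCV : ∀ w ∈ C, 0 < w.im ∧ 0 < hf a b c d w) {O : Set ℂ} (hO : IsOpen O) (hne : (O ∩ C).Nonempty)
    (hrel : ∀ w ∈ O, Rl J Q a b c d w = 0) : ∀ w ∈ C, Rl J Q a b c d w = 0 := by
  obtain ⟨z₀, hz₀, hz₀'⟩ := hne
  have h1 : AnalyticOnNhd ℂ (Rl J Q a b c d) C := fun w hw => Rl_an h Q (hCV w hw).1 (hCV w hw).2
  have h2 : Rl J Q a b c d =ᶠ[𝓝 z₀] 0 := by
    filter_upwards [hO.mem_nhds hz₀] with w hw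
    exact hrel w hw
  exact h1.eqOn_zero_of_preconnected_of_eventuallyEq_zero hC.isPreconnected hz₀' h2

/-- the hermitian form in real coordinates -/
theorem hf_real (a b c d w : ℂ) : hf a b c d w = (a * conj c).im * (w.re ^ 2 + w.im ^ 2) +
    (a * conj d + b * conj c).im * w.re + (a * conj d - b * conj c).re * w.im + (b * conj d).im := by
  simp only [hf, Complex.mul_im, Complex.mul_re, Complex.add_re, Complex.add_im, Complex.conj_re, Complex.conj_im,
    Complex.sub_re]
  ring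

theorem convex_half (A B r : ℝ) : Convex ℝ {w : ℂ | r < A * w.re + B * w.im} := by
  refine convex_halfSpace_gt (f := fun w : ℂ => A * w.re + B * w.im) ?_ r
  constructor
  · intro x y
    simp only [Complex.add_re, Complex.add_im]
    ring
  · intro c x
    simp only [Complex.real_smul, Complex.mul_re, Complex.mul_im, Complex.ofReal_re, Complex.ofReal_im, smul_eq_mul]
    ring

/-- **the cusp `∞` is not mapped into the upper half-plane** -/
theorem caseA (h : JP J N) {a b c d : ℂ} (hΔ : a * d - b * c ≠ 0) {W : Set ℂ} (hWo : IsOpen W) (hWne : W.Nonempty)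
    (hWV : ∀ w ∈ W, 0 < w.im ∧ 0 < hf a b c d w) {Q : MvPolynomial (Fin 2) ℂ} (hQ : Q ≠ 0)
    (hrel : ∀ w ∈ W, Rl J Q a b c d w = 0) (hα : 0 < (a * conj c).im) : False := by
  set α := (a * conj c).im with hαd
  set A' := (a * conj d + b * conj c).im with hA'
  set B' := (a * conj d - b * conj c).re with hB'
  set D' := (b * conj d).im with hD'
  have hfe : ∀ w : ℂ, hf a b c d w = α * (w.re ^ 2 + w.im ^ 2) + A' * w.re + B' * w.im + D' := fun w => hf_real a b c d w
  -- the point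
  obtain ⟨w₀, hw₀, hl⟩ : ∃ w₀ ∈ W, 2 * α * w₀.re + A' ≠ 0 := by
    obtain ⟨w₁, hw₁⟩ := hWne
    by_cases h1 : 2 * α * w₁.re + A' = 0
    · obtain ⟨ε, hε, hb⟩ := Metric.isOpen_iff.1 hWo w₁ hw₁
      refine ⟨w₁ + ((ε / 2 : ℝ) : ℂ), hb ?_, ?_⟩
      · rw [Metric.mem_ball, dist_eq_norm, add_sub_cancel_left, Complex.norm_real, Real.norm_eq_abs,
          abs_of_pos (by positivity)]
        linarith
      · rw [Complex.add_re, Complex.ofReal_re]
        have h2 : 2 * α * (w₁.re + ε / 2) + A' = α * ε := by linear_combination h1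
        rw [h2]
        positivity
    · exact ⟨w₁, hw₁, h1⟩
  set A := 2 * α * w₀.re + A' with hA
  set B := 2 * α * w₀.im + B' with hB
  set h₀ := hf a b c d w₀ with hh₀
  have hh₀p : 0 < h₀ := (hWV w₀ hw₀).2
  have hexp : ∀ w : ℂ, hf a b c d w = h₀ + (A * (w.re - w₀.re) + B * (w.im - w₀.im)) +
      α * ((w.re - w₀.re) ^ 2 + (w.im - w₀.im) ^ 2) := by
    intro w
    rw [hh₀, hfe, hfe, hA, hB]
    ring
  -- the first convex set
  set C₁ : Set ℂ := {w : ℂ | 0 < w.im} ∩ {w : ℂ | A * w₀.re + B * w₀.im - h₀ < A * w.re + B * w.im} with hC₁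
  have hC₁c : Convex ℝ C₁ := (convex_halfSpace_im_gt 0).inter (convex_half A B _)
  have hC₁o : IsOpen C₁ := by
    refine (isOpen_lt continuous_const Complex.continuous_im).inter (isOpen_lt continuous_const ?_)
    exact (continuous_const.mul Complex.continuous_re).add (continuous_const.mul Complex.continuous_im)
  have hC₁V : ∀ w ∈ C₁, 0 < w.im ∧ 0 < hf a b c d w := by
    rintro w ⟨h1, h2⟩
    refine ⟨h1, ?_⟩
    have h2' : A * w₀.re + B * w₀.im - h₀ < A * w.re + B * w.im := h2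
    rw [hexp]
    have h3 : 0 ≤ α * ((w.re - w₀.re) ^ 2 + (w.im - w₀.im) ^ 2) := by positivity
    linarith
  have hw₀C : w₀ ∈ C₁ := by
    refine ⟨(hWV w₀ hw₀).1, ?_⟩
    show A * w₀.re + B * w₀.im - h₀ < A * w₀.re + B * w₀.im
    linarith
  have hrel₁ := ext_rel h hC₁c hC₁V hWo ⟨w₀, hw₀, hw₀C⟩ hrel
  -- the half-plane
  obtain ⟨M, hM⟩ : ∃ M : ℝ, M = |B'| + |D'| + A' ^ 2 / (4 * α) + 1 := ⟨_, rfl⟩
  obtain ⟨R, hR⟩ : ∃ R : ℝ, R = max 1 (M / α) := ⟨_, rfl⟩
  have hR1 : 1 ≤ R := by rw [hR]; exact le_max_left _ _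
  have hRM : M ≤ α * R := by
    have : M / α ≤ R := by rw [hR]; exact le_max_right _ _
    rwa [div_le_iff₀ hα, mul_comm] at this
  set C₂ : Set ℂ := {w : ℂ | R < w.im} with hC₂
  have hC₂c : Convex ℝ C₂ := convex_halfSpace_im_gt R
  have hC₂o : IsOpen C₂ := isOpen_lt continuous_const Complex.continuous_im
  have hC₂V : ∀ w ∈ C₂, 0 < w.im ∧ 0 < hf a b c d w := by
    intro w hw
    have hw' : R < w.im := hw
    refine ⟨by linarith, ?_⟩
    rw [hfe]
    set x := w.re
    set y := w.im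
    have hy1 : 1 < y := by linarith
    have e1 : 0 ≤ α * (x + A' / (2 * α)) ^ 2 := by positivity
    have e2 : α * (x + A' / (2 * α)) ^ 2 = α * x ^ 2 + A' * x + A' ^ 2 / (4 * α) := by
      field_simp
      ring
    have e3 : M * y ≤ α * y ^ 2 := by
      have h1 : M * y ≤ α * R * y := mul_le_mul_of_nonneg_right hRM (by linarith)
      have h2 : α * R * y ≤ α * y * y := by
        apply mul_le_mul_of_nonneg_right _ (by linarith)
        exact mul_le_mul_of_nonneg_left hw'.le hα.le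
      nlinarith
    have e4 : -(|B'| * y) ≤ B' * y := by
      have := mul_le_mul_of_nonneg_right (neg_abs_le B') (by linarith : (0 : ℝ) ≤ y)
      linarith
    have e5 : |D'| ≤ |D'| * y := by
      have := abs_nonneg D'
      nlinarith
    have e6 := neg_abs_le D'
    have e7 : A' ^ 2 / (4 * α) ≤ A' ^ 2 / (4 * α) * y := by
      have : 0 ≤ A' ^ 2 / (4 * α) := by positivity
      nlinarith
    rw [hM] at e3
    nlinarith
  have hmeet : (C₁ ∩ C₂).Nonempty := by
    set y := R + 1 + |w₀.im| with hy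
    have hy0 : R < y := by
      have := abs_nonneg w₀.im
      linarith
    set t := (|B * (y - w₀.im)| + 1) / A with ht
    have hAt : A * t = |B * (y - w₀.im)| + 1 := by
      rw [ht, mul_div_cancel₀ _ hl]
    refine ⟨⟨w₀.re + t, y⟩, ⟨?_, ?_⟩, hy0⟩
    · show 0 < y
      linarith
    · show A * w₀.re + B * w₀.im - h₀ < A * (w₀.re + t) + B * y
      have h1 := neg_abs_le (B * (y - w₀.im))
      nlinarith
  have hrel₂ := ext_rel h hC₂c hC₂V hC₁o hmeet hrel₁
  obtain ⟨r1, r2, r3, -, e2, e3⟩ := pig h hΔ hC₂o ⟨⟨0, R + 1⟩, by show R < R + 1; linarith⟩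
    (fun w hw => (hC₂V w hw).1) (fun w hw => by
      show R < (w + 1).im
      have : R < w.im := hw
      simpa using this) (fun w hw => (hf_pos_iff.1 (hC₂V w hw).2).1)
    (fun w hw => (hf_pos_iff.1 (hC₂V w hw).2).2) hQ hrel₂
  have hc : c ≠ 0 := by
    rintro rfl
    simp [hαd] at hα
  have hr3 : (r3 : ℂ) ≠ 0 := by
    intro h0
    rw [h0, zero_mul] at e3
    exact hc (pow_eq_zero_iff two_ne_zero |>.1 e3)
  have ha : a = ((r2 / r3 : ℚ) : ℂ) * c := by
    have h1 : a * r3 * c = r2 * c * c := by linear_combination r3 * e2 - r2 * e3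
    have h2 : a * r3 = r2 * c := mul_right_cancel₀ hc h1
    push_cast
    rw [div_mul_eq_mul_div, eq_div_iff hr3, h2]
  rw [hαd, ha, mul_assoc, Complex.mul_conj] at hα
  have h5 : ((((r2 / r3 : ℚ) : ℂ)) * ((Complex.normSq c : ℝ) : ℂ)).im = 0 := by
    have : ((r2 / r3 : ℚ) : ℂ) = (((r2 / r3 : ℚ) : ℝ) : ℂ) := by push_cast; rfl
    rw [this, ← Complex.ofReal_mul, Complex.ofReal_im]
  rw [h5] at hα
  exact lt_irrefl _ hα

end Pool.Agent.T2H95.NJ
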