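import Pool.Agent.T2H95.NJ.MobA

/-!
# A relation between `J (w)` and `J (g w)`: no rational point is mapped into the upper half-plane; inverse matrices
-/

set_option autoImplicit false

open Filter Topology
open scoped ComplexConjugate

namespace Pool.Agent.T2H95.NJ

variable {J : ℂ → ℂ} {N : Set ℂ}

/-- the hypotheses on a relation -/
structure Dt (J : ℂ → ℂ) (N : Set ℂ) (a b c d : ℂ) (W : Set ℂ) (Q : MvPolynomial (Fin 2) ℂ) : Prop where
  jp : JP J N
  det : a * d - b * c ≠ 0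
  op : IsOpen W
  ne : W.Nonempty
  dom : ∀ w ∈ W, 0 < w.im ∧ 0 < hf a b c d w
  q0 : Q ≠ 0
  rel : ∀ w ∈ W, Rl J Q a b c d w = 0

variable {a b c d : ℂ} {W : Set ℂ} {Q : MvPolynomial (Fin 2) ℂ}

theorem den_ne {m n : ℝ} (h : m ≠ 0 ∨ n ≠ 0) {w : ℂ} (hw : 0 < w.im) : (m : ℂ) * w + n ≠ 0 := by
  intro h0
  have h1 := congrArg Complex.im h0
  have h2 := congrArg Complex.re h0
  simp at h1 h2
  rcases h1 with h1 | h1
  · rcases h with h | h
    · exact h h1
    · rw [h1] at h2
      simp at h2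
      exact h h2
  · linarith

theorem im_mob {p q r s : ℝ} (h : 0 < p * s - q * r) {w : ℂ} (hw : 0 < w.im) :
    (r : ℂ) * w + s ≠ 0 ∧ 0 < (((p : ℂ) * w + q) / ((r : ℂ) * w + s)).im := by
  have hne : (r : ℂ) * w + s ≠ 0 := den_ne (by
    by_contra hcon
    push Not at hcon
    rw [hcon.1, hcon.2] at h
    simp at h) hw
  refine ⟨hne, ?_⟩
  rw [div_im_eq]
  apply div_pos _ (Complex.normSq_pos.2 hne)
  have : (((p : ℂ) * w + q) * conj ((r : ℂ) * w + s)).im = (p * s - q * r) * w.im := by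
    simp only [Complex.mul_im, Complex.mul_re, Complex.add_re, Complex.add_im, Complex.conj_re, Complex.conj_im,
      Complex.ofReal_re, Complex.ofReal_im]
    ring
  rw [this]
  positivity

/-- composition with a unimodular matrix -/
theorem Dt.comp (h : Dt J N a b c d W Q) (m k n l : ℤ) (hd : m * l - k * n = 1) :
    ∃ W' : Set ℂ, Dt J N (a * m + b * n) (a * k + b * l) (c * m + d * n) (c * k + d * l) W' Q := by
  have hdR : (m : ℝ) * l - k * n = 1 := by exact_mod_cast hd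
  have hdC : (m : ℂ) * l - k * n = 1 := by exact_mod_cast hd
  have hmob : ∀ w : ℂ, 0 < w.im → (n : ℂ) * w + l ≠ 0 ∧ 0 < (((m : ℂ) * w + k) / ((n : ℂ) * w + l)).im := by
    intro w hw
    have := im_mob (p := m) (q := k) (r := n) (s := l) (by rw [hdR]; exact one_pos) hw
    simpa using this
  set φ : ℂ → ℂ := fun w => ((m : ℂ) * w + k) / ((n : ℂ) * w + l) with hφ
  refine ⟨{w : ℂ | 0 < w.im} ∩ φ ⁻¹' W, h.jp, ?_, ?_, ?_, ?_, h.q0, ?_⟩
  · have : (a * m + b * n) * (c * k + d * l) - (a * k + b * l) * (c * m + d * n) = a * d - b * c := by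
      linear_combination (a * d - b * c) * hdC
    rw [this]
    exact h.det
  · refine ContinuousOn.isOpen_inter_preimage ?_ (isOpen_lt continuous_const Complex.continuous_im) h.op
    intro w hw
    refine ContinuousAt.continuousWithinAt ?_
    exact ContinuousAt.div (by fun_prop) (by fun_prop) (hmob w hw).1
  · obtain ⟨w₀, hw₀⟩ := h.ne
    have h1 := im_mob (p := l) (q := -k) (r := -n) (s := m) (by linarith) (h.dom w₀ hw₀).1
    have h1' : (-(n : ℂ)) * w₀ + m ≠ 0 ∧ 0 < (((l : ℂ) * w₀ + -k) / ((-(n : ℂ)) * w₀ + m)).im := by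
      simpa using h1
    refine ⟨((l : ℂ) * w₀ + -k) / ((-(n : ℂ)) * w₀ + m), h1'.2, ?_⟩
    show φ _ ∈ W
    have h2 : φ (((l : ℂ) * w₀ + -k) / ((-(n : ℂ)) * w₀ + m)) = w₀ := by
      simp only [hφ]
      have e1 : (n : ℂ) * (((l : ℂ) * w₀ + -k) / ((-(n : ℂ)) * w₀ + m)) + l = 1 / ((-(n : ℂ)) * w₀ + m) := by
        rw [eq_div_iff h1'.1, add_mul, mul_assoc, div_mul_cancel₀ _ h1'.1]
        linear_combination hdC
      have e2 : (m : ℂ) * (((l : ℂ) * w₀ + -k) / ((-(n : ℂ)) * w₀ + m)) + k = w₀ / ((-(n : ℂ)) * w₀ + m) := by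
        rw [eq_div_iff h1'.1, add_mul, mul_assoc, div_mul_cancel₀ _ h1'.1]
        linear_combination w₀ * hdC
      rw [e1, e2, div_div_div_cancel_right₀ h1'.1, div_one]
    rw [h2]
    exact hw₀
  all_goals
    rintro w ⟨hw, hwW⟩
    have hden := (hmob w hw).1
    obtain ⟨h1, h2⟩ := h.dom (φ w) hwW
    obtain ⟨h3, h4⟩ := hf_pos_iff.1 h2
    have e1 : c * φ w + d = ((c * m + d * n) * w + (c * k + d * l)) / ((n : ℂ) * w + l) := by
      rw [eq_div_iff hden, add_mul, mul_assoc, hφ]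
      simp only
      rw [div_mul_cancel₀ _ hden]
      ring
    have e2 : a * φ w + b = ((a * m + b * n) * w + (a * k + b * l)) / ((n : ℂ) * w + l) := by
      rw [eq_div_iff hden, add_mul, mul_assoc, hφ]
      simp only
      rw [div_mul_cancel₀ _ hden]
      ring
    have h5 : (c * m + d * n) * w + (c * k + d * l) ≠ 0 := by
      intro h0
      rw [e1, h0, zero_div] at h3
      exact h3 rfl
    have e3 : (a * φ w + b) / (c * φ w + d) =
        ((a * m + b * n) * w + (a * k + b * l)) / ((c * m + d * n) * w + (c * k + d * l)) := by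
      rw [e1, e2, div_div_div_cancel_right₀ hden]
  · refine ⟨hw, hf_pos_iff.2 ⟨h5, ?_⟩⟩
    rw [← e3]
    exact h4
  · have h6 := h.rel (φ w) hwW
    rw [Rl] at h6 ⊢
    rw [← e3, ← h6]
    have h7 : J (φ w) = J w := h.jp.inv m k n l hd w hw
    rw [h7]

/-- **no rational point is mapped into the upper half-plane** -/
theorem Dt.ratl (h : Dt J N a b c d W Q) (q : ℚ) : hf a b c d q ≤ 0 := by
  by_contra hcon
  push Not at hcon
  have hcop : IsCoprime (q.num) (q.den : ℤ) := by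
    rw [Int.isCoprime_iff_gcd_eq_one]
    have := q.reduced
    rw [Int.gcd_def, Int.natAbs_natCast]
    exact this
  obtain ⟨u, v, huv⟩ := hcop
  obtain ⟨W', h'⟩ := h.comp q.num (-v) q.den u (by linear_combination huv)
  refine caseA h'.jp h'.det h'.op h'.ne h'.dom h'.q0 h'.rel ?_
  have hqd : (0 : ℝ) < q.den := by exact_mod_cast q.pos
  have hqn : (q : ℂ) * (q.den : ℂ) = q.num := by
    have := Rat.mul_den_eq_num q
    exact_mod_cast this
  have e1 : a * (q.num : ℂ) + b * ((q.den : ℤ) : ℂ) = (a * q + b) * ((q.den : ℝ) : ℂ) := by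
    push_cast
    linear_combination -a * hqn
  have e2 : c * (q.num : ℂ) + d * ((q.den : ℤ) : ℂ) = (c * q + d) * ((q.den : ℝ) : ℂ) := by
    push_cast
    linear_combination -c * hqn
  rw [e1, e2, map_mul, Complex.conj_ofReal]
  have e3 : (a * q + b) * ((q.den : ℝ) : ℂ) * (conj (c * q + d) * ((q.den : ℝ) : ℂ)) =
      ((a * q + b) * conj (c * q + d)) * (((q.den : ℝ) ^ 2 : ℝ) : ℂ) := by
    push_cast
    ring
  rw [e3, Complex.im_mul_ofReal]
  exact mul_pos hcon (by positivity)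

theorem Dt.infty (h : Dt J N a b c d W Q) : (a * conj c).im ≤ 0 := by
  by_contra hcon
  push Not at hcon
  exact caseA h.jp h.det h.op h.ne h.dom h.q0 h.rel hcon

/-- **the inverse matrix** -/
theorem Dt.swap (h : Dt J N a b c d W Q) :
    ∃ (W' : Set ℂ) (Q' : MvPolynomial (Fin 2) ℂ), Dt J N d (-b) (-c) a W' Q' := by
  set ψ : ℂ → ℂ := fun u => (d * u + -b) / (-c * u + a) with hψ
  refine ⟨({u : ℂ | 0 < u.im} ∩ {u : ℂ | -c * u + a ≠ 0}) ∩ ψ ⁻¹' W, MvPolynomial.rename (Equiv.swap 0 1) Q, h.jp,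
    ?_, ?_, ?_, ?_, ?_, ?_⟩
  · have : d * a - -b * -c = a * d - b * c := by ring
    rw [this]
    exact h.det
  · refine ContinuousOn.isOpen_inter_preimage ?_ ?_ h.op
    · intro w hw
      refine ContinuousAt.continuousWithinAt ?_
      exact ContinuousAt.div (by fun_prop) (by fun_prop) hw.2
    · refine (isOpen_lt continuous_const Complex.continuous_im).inter ?_
      exact isOpen_ne_fun (by fun_prop) continuous_const
  · obtain ⟨w₀, hw₀⟩ := h.ne
    obtain ⟨h1, h2⟩ := h.dom w₀ hw₀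
    obtain ⟨h3, h4⟩ := hf_pos_iff.1 h2
    have e1 : -c * ((a * w₀ + b) / (c * w₀ + d)) + a = (a * d - b * c) / (c * w₀ + d) := by
      rw [eq_div_iff h3, add_mul, mul_assoc, div_mul_cancel₀ _ h3]
      ring
    have e2 : d * ((a * w₀ + b) / (c * w₀ + d)) + -b = w₀ * (a * d - b * c) / (c * w₀ + d) := by
      rw [eq_div_iff h3, add_mul, mul_assoc, div_mul_cancel₀ _ h3]
      ring
    refine ⟨(a * w₀ + b) / (c * w₀ + d), ⟨h4, ?_⟩, ?_⟩
    · show -c * ((a * w₀ + b) / (c * w₀ + d)) + a ≠ 0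
      rw [e1]
      exact div_ne_zero h.det h3
    · show ψ _ ∈ W
      have : ψ ((a * w₀ + b) / (c * w₀ + d)) = w₀ := by
        simp only [hψ]
        rw [e1, e2, div_div_div_cancel_right₀ h3, mul_div_cancel_right₀ _ h.det]
      rw [this]
      exact hw₀
  · rintro u ⟨⟨hu, hu'⟩, huW⟩
    obtain ⟨h1, h2⟩ := h.dom (ψ u) huW
    exact ⟨hu, hf_pos_iff.2 ⟨hu', h1⟩⟩
  · intro h0
    exact h.q0 (MvPolynomial.rename_injective _ (Equiv.injective _) (by rw [h0, map_zero]))
  · rintro u ⟨⟨hu, hu'⟩, huW⟩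
    have hu'' : -c * u + a ≠ 0 := hu'
    have h6 := h.rel (ψ u) huW
    obtain ⟨h1, h2⟩ := h.dom (ψ u) huW
    obtain ⟨h3, h4⟩ := hf_pos_iff.1 h2
    have e1 : c * ψ u + d = (a * d - b * c) / (-c * u + a) := by
      rw [eq_div_iff hu'', add_mul, mul_assoc, hψ]
      simp only
      rw [div_mul_cancel₀ _ hu'']
      ring
    have e2 : a * ψ u + b = u * (a * d - b * c) / (-c * u + a) := by
      rw [eq_div_iff hu'', add_mul, mul_assoc, hψ]
      simp only
      rw [div_mul_cancel₀ _ hu'']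
      ring
    have e3 : (a * ψ u + b) / (c * ψ u + d) = u := by
      rw [e1, e2, div_div_div_cancel_right₀ hu'', mul_div_cancel_right₀ _ h.det]
    rw [Rl, e3] at h6
    rw [Rl, MvPolynomial.eval_rename, ← h6]
    congr 2
    funext i
    fin_cases i
    · rfl
    · rfl

end Pool.Agent.T2H95.NJ
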