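import Pool.Agent.T2H95.NJ.Curves
import Pool.Agent.T2H95.NJ.Cnt
import Pool.Agent.X39.Near.Dep

/-!
# Algebraic curves: all points near almost every point
-/

set_option autoImplicit false

open Filter Topology MvPolynomial

noncomputable section

namespace Pool.Agent.T2H95.NJ

open Pool.Agent.X39.Near (Size Dep near_dep)

/-- the balls -/
def Bl (b : ℚ × ℚ × ℕ) : Set ℂ := Metric.ball ((b.1 : ℂ) + b.2.1 * Complex.I) (1 / ((b.2.2 : ℝ) + 1))

theorem Bl_open (b : ℚ × ℚ × ℕ) : IsOpen (Bl b) := Metric.isOpen_ball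
theorem Bl_conn (b : ℚ × ℚ × ℕ) : IsPreconnected (Bl b) := (convex_ball _ _).isPreconnected
theorem Bl_ne (b : ℚ × ℚ × ℕ) : (Bl b).Nonempty := Metric.nonempty_ball.2 (by positivity)

theorem exists_Bl (x : ℂ) {ρ : ℝ} (hρ : 0 < ρ) : ∃ b, x ∈ Bl b ∧ Bl b ⊆ Metric.ball x ρ := by
  obtain ⟨m, hm⟩ := exists_nat_one_div_lt (show (0 : ℝ) < ρ / 2 by positivity)
  have hr : (0 : ℝ) < 1 / ((m : ℝ) + 1) := by positivity
  obtain ⟨q1, h1, h1'⟩ := exists_rat_btwn (show x.re - 1 / ((m : ℝ) + 1) / 2 < x.re + 1 / ((m : ℝ) + 1) / 2 by linarith)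
  obtain ⟨q2, h2, h2'⟩ := exists_rat_btwn (show x.im - 1 / ((m : ℝ) + 1) / 2 < x.im + 1 / ((m : ℝ) + 1) / 2 by linarith)
  have hd : dist x ((q1 : ℂ) + q2 * Complex.I) < 1 / ((m : ℝ) + 1) := by
    rw [dist_eq_norm]
    have e1 : (x - ((q1 : ℂ) + q2 * Complex.I)).re = x.re - q1 := by simp
    have e2 : (x - ((q1 : ℂ) + q2 * Complex.I)).im = x.im - q2 := by simp
    refine lt_of_le_of_lt (Complex.norm_le_abs_re_add_abs_im _) ?_
    rw [e1, e2]
    have a1 : |x.re - q1| < 1 / ((m : ℝ) + 1) / 2 := by rw [abs_lt]; constructor <;> linarith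
    have a2 : |x.im - q2| < 1 / ((m : ℝ) + 1) / 2 := by rw [abs_lt]; constructor <;> linarith
    linarith
  refine ⟨(q1, q2, m), ?_, ?_⟩
  · rw [Bl, Metric.mem_ball]
    exact hd
  · intro z hz
    rw [Bl, Metric.mem_ball] at hz
    rw [Metric.mem_ball]
    have h3 := dist_triangle z ((q1 : ℂ) + q2 * Complex.I) x
    have h4 := dist_comm ((q1 : ℂ) + q2 * Complex.I) x
    have hz' : dist z ((q1 : ℂ) + q2 * Complex.I) < 1 / ((m : ℝ) + 1) := hz
    linarith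

/-- an algebraic curve near the point `x`, over the algebraic numbers -/
structure CurveAt (x : ℂ) {n s : ℕ} (φ : Fin n → ℂ → ℂ) (e : Fin s → Fin n) : Prop where
  an : ∀ i, AnalyticAt ℂ (φ i) x
  im : ∀ i, 0 < (φ i x).im
  alg : ∀ i, ∃ P : MvPolynomial (Fin 2) ℂ, P ≠ 0 ∧ (∀ m, IsAlgebraic ℚ (P.coeff m)) ∧ ∀ᶠ z in 𝓝 x, eval ![z, φ i z] P = 0
  nc : ∀ i c, ¬ ∀ᶠ z in 𝓝 x, φ i z = c
  rat : ∀ i k, i ≠ k → ∀ p q r s : ℚ, p * s - q * r ≠ 0 →
    ¬ ∀ᶠ z in 𝓝 x, φ k z * ((r : ℂ) * φ i z + s) = (p : ℂ) * φ i z + q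
  lin : ∀ (m : Fin s → ℤ) (c : ℂ), (∀ᶠ z in 𝓝 x, ∑ k, (m k : ℂ) * φ (e k) z = c) → m = 0

/-- the index set -/
def Ix : Type := Σ (b : ℚ × ℚ × ℕ) (n s : ℕ), (Fin n → AFA (Bl b)) × (Fin s → Fin n)

instance : Countable Ix := by
  have h1 : ∀ b, Countable (AFA (Bl b)) := fun b => (AFA_countable (Bl_open b) (Bl_conn b) (Bl_ne b)).to_subtype
  unfold Ix
  infer_instance

/-- the functions of an index -/
def fx (x : Ix) (i : Fin x.2.1) : ℂ → ℂ := (x.2.2.2.1 i).1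

open Classical in
/-- the truncated functions -/
def tr (B : Set ℂ) (f : ℂ → ℂ) (z : ℂ) : ℂ := if z ∈ B then f z else 0

theorem tr_eq {B : Set ℂ} {f : ℂ → ℂ} {z : ℂ} (hz : z ∈ B) : tr B f z = f z := if_pos hz

theorem tr_ev {B : Set ℂ} (hB : IsOpen B) {f : ℂ → ℂ} {z : ℂ} (hz : z ∈ B) : tr B f =ᶠ[𝓝 z] f := by
  filter_upwards [hB.mem_nhds hz] with w hw
  exact tr_eq hw

/-- **every curve near a point comes from an index** -/
theorem CurveAt.index {x : ℂ} {n s : ℕ} {φ : Fin n → ℂ → ℂ} {e : Fin s → Fin n} (h : CurveAt x φ e) :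
    ∃ (b : ℚ × ℚ × ℕ) (f : Fin n → AFA (Bl b)), x ∈ Bl b ∧ Crv (Bl b) (fun i => (f i).1) e ∧
      ∀ i, ∀ z ∈ Bl b, (f i).1 z = φ i z := by
  classical
  choose P hP0 hPA hP using h.alg
  have hev : ∀ᶠ z in 𝓝 x, ∀ i, AnalyticAt ℂ (φ i) z ∧ 0 < (φ i z).im ∧ eval ![z, φ i z] (P i) = 0 := by
    rw [Filter.eventually_all]
    intro i
    have h1 := (h.an i).eventually_analyticAt
    have h2 : ∀ᶠ z in 𝓝 x, 0 < (φ i z).im := by
      have hc : ContinuousAt (fun z => (φ i z).im) x := Complex.continuous_im.continuousAt.comp (h.an i).continuousAt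
      exact hc.eventually (lt_mem_nhds (h.im i))
    filter_upwards [h1, h2, hP i] with z a1 a2 a3
    exact ⟨a1, a2, a3⟩
  obtain ⟨ρ, hρ, hball⟩ := Metric.eventually_nhds_iff_ball.1 hev
  obtain ⟨b, hxb, hb⟩ := exists_Bl x hρ
  have hall := fun z (hz : z ∈ Bl b) => hball z (hb hz)
  have hmem : ∀ i, tr (Bl b) (φ i) ∈ AFA (Bl b) := by
    intro i
    rw [AFA, Set.mem_iUnion₂]
    refine ⟨P i, ⟨hPA i, hP0 i⟩, ?_, ?_, ?_⟩
    · intro z hz
      exact (hall z hz i).1.congr (tr_ev (Bl_open b) hz).symm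
    · intro z hz
      rw [tr_eq hz]
      exact (hall z hz i).2.2
    · intro z hz
      exact if_neg hz
  refine ⟨b, fun i => ⟨tr (Bl b) (φ i), hmem i⟩, hxb, ?_, fun i z hz => tr_eq hz⟩
  have hnear : ∀ {p : ℂ → Prop}, (∀ z ∈ Bl b, p z) → ∀ᶠ z in 𝓝 x, p z := by
    intro p hp
    filter_upwards [(Bl_open b).mem_nhds hxb] with z hz
    exact hp z hz
  exact
    { op := Bl_open b
      conn := Bl_conn b
      ne := Bl_ne b
      an := fun i z hz => (hall z hz i).1.congr (tr_ev (Bl_open b) hz).symm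
      im := fun i z hz => by
        show 0 < (tr (Bl b) (φ i) z).im
        rw [tr_eq hz]
        exact (hall z hz i).2.1
      nc := fun i c => by
        by_contra hcon
        push Not at hcon
        refine h.nc i c (hnear fun z hz => ?_)
        rw [← hcon z hz]
        exact (tr_eq hz).symm
      alg := fun i => ⟨P i, hP0 i, fun z hz => by
        show eval ![z, tr (Bl b) (φ i) z] (P i) = 0
        rw [tr_eq hz]
        exact (hall z hz i).2.2⟩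
      rat := fun i k hik p q r s hdet => by
        by_contra hcon
        push Not at hcon
        refine h.rat i k hik p q r s hdet (hnear fun z hz => ?_)
        have h1 : tr (Bl b) (φ k) z * ((r : ℂ) * tr (Bl b) (φ i) z + s) = (p : ℂ) * tr (Bl b) (φ i) z + q := hcon z hz
        rwa [tr_eq hz, tr_eq hz] at h1
      lin := fun m c hm => by
        refine h.lin m c (hnear fun z hz => ?_)
        rw [← hm z hz]
        refine Finset.sum_congr rfl fun k _ => ?_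
        show (m k : ℂ) * φ (e k) z = (m k : ℂ) * tr (Bl b) (φ (e k)) z
        rw [tr_eq hz] }

theorem vl_eq {n s : ℕ} {φ f : Fin n → ℂ → ℂ} {e : Fin s → Fin n} {z : ℂ} (h : ∀ i, f i z = φ i z)
    (k : (Fin n × Fin 3) ⊕ Fin s) : vl f e k z = vl φ e k z := by
  rcases k with ⟨i, m⟩ | k
  · show b3 m (f i z) = b3 m (φ i z)
    rw [h]
  · show Complex.exp (2 * (Real.pi : ℂ) * Complex.I * f (e k) z) = Complex.exp (2 * (Real.pi : ℂ) * Complex.I * φ (e k) z)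
    rw [h]

/-- **One variable, arbitrary constants.** -/
theorem near_curves {g : ℕ} (ξ : Fin g → ℂ) :
    ∃ E : Set ℂ, dimH E = 0 ∧ ∀ x ∉ E, ∀ (n s : ℕ) (φ : Fin n → ℂ → ℂ) (e : Fin s → Fin n), 0 < n → CurveAt x φ e →
      ∀ (F : Type) [Field F] [NumberField F] (ι : F →+* ℂ) (d A : ℕ) (ω : ℝ), 0 < ω → ∃ B T₁ : ℝ, ∀ T : ℝ, T₁ ≤ T →
        ∀ t : F, Size F T t → ‖ι t - x‖ ≤ T ^ (-ω) → ¬ Dep (fun k => vl φ e k (ι t)) ξ F ι d A B T := by
  classical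
  have hex : ∀ y : Ix, ∃ E : Set ℂ, dimH E = 0 ∧ (Crv (Bl y.1) (fx y) y.2.2.2.2 → 0 < y.2.1 →
      ∀ x ∈ Bl y.1, x ∉ E → ∀ (F : Type) [Field F] [NumberField F] (ι : F →+* ℂ) (d A : ℕ) (ω : ℝ), 0 < ω →
        ∃ B T₁ : ℝ, ∀ T : ℝ, T₁ ≤ T → ∀ t : F, Size F T t → ‖ι t - x‖ ≤ T ^ (-ω) →
          ¬ Dep (fun k => vl (fx y) y.2.2.2.2 k (ι t)) ξ F ι d A B T) := by
    intro y
    by_cases hy : Crv (Bl y.1) (fx y) y.2.2.2.2 ∧ 0 < y.2.1
    · obtain ⟨E, h1, h2, -⟩ := near_dep (Bl y.1) (Bl_open _) (vl (fx y) y.2.2.2.2)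
        (fun k t ht => vl_an (fun i => hy.1.an i t ht) (fun i => hy.1.im i t ht) k) (hy.1.loc hy.2) ξ
      exact ⟨E, h1, fun _ _ => h2⟩
    · exact ⟨∅, by simp, fun h1 h2 => absurd ⟨h1, h2⟩ hy⟩
  choose E hE1 hE2 using hex
  refine ⟨⋃ y, E y, ?_, ?_⟩
  · rw [dimH_iUnion]
    exact le_antisymm (iSup_le fun y => (hE1 y).le) bot_le
  intro x hx n s φ e hn hφ F _ _ ι d A ω hω
  obtain ⟨b, f, hxb, hC, hf⟩ := hφ.index
  set y : Ix := ⟨b, n, s, f, e⟩ with hy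
  have hxE : x ∉ E y := fun h => hx (Set.mem_iUnion.2 ⟨y, h⟩)
  obtain ⟨B, T₁, hB⟩ := hE2 y hC hn x hxb hxE F ι d A ω hω
  obtain ⟨ρ, hρ, hball⟩ := Metric.isOpen_iff.1 (Bl_open b) x hxb
  obtain ⟨T₂, hT₂⟩ := Filter.eventually_atTop.1 ((tendsto_rpow_neg_atTop hω).eventually (gt_mem_nhds hρ))
  refine ⟨B, max T₁ T₂, fun T hT t ht htx hdep => ?_⟩
  have hmem : ι t ∈ Bl b := by
    apply hball
    rw [Metric.mem_ball, dist_eq_norm]
    exact lt_of_le_of_lt htx (hT₂ T ((le_max_right _ _).trans hT))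
  refine hB T ((le_max_left _ _).trans hT) t ht htx ?_
  have e1 : (fun k => vl (fx y) y.2.2.2.2 k (ι t)) = fun k => vl φ e k (ι t) := by
    funext k
    exact vl_eq (fun i => hf i _ hmem) k
  rw [e1]
  exact hdep

end Pool.Agent.T2H95.NJ
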