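import Pool.Agent.T2H95.NJ.Near
import Pool.Agent.Helper264.NT.NearR

/-!
# Algebraic curves: all tuples of points near almost every point of `ℂ ^ n`
-/

set_option autoImplicit false

open Filter Topology MvPolynomial Height
open scoped ENNReal

noncomputable section

namespace Pool.Agent.T2H95.NJ

open Pool.Agent.Helper264.NT (Rel mainK mem_of_near)

/-- the index set -/
def IxN (n : ℕ) : Type :=
  Σ (p s : ℕ) (b : Fin n → ℚ × ℚ × ℕ), ∀ l : Fin n, ((Fin p → AFA (Bl (b l))) × (Fin s → Fin p))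

instance (n : ℕ) : Countable (IxN n) := by
  have h1 : ∀ b, Countable (AFA (Bl b)) := fun b => (AFA_countable (Bl_open b) (Bl_conn b) (Bl_ne b)).to_subtype
  unfold IxN
  infer_instance

/-- **`n` variables.** -/
theorem near_curves_n (n : ℕ) (hn : 1 ≤ n) {g : ℕ} (ξ : Fin g → ℝ) (hξ : Pool.Agent.Y124.GoodXi ξ) :
    ∃ E : Set (Fin n → ℂ), dimH E ≤ ((2 * (n - 1) : ℕ) : ℝ≥0∞) ∧ ∀ z ∉ E, ∀ (p s : ℕ) (φ : Fin n → Fin p → ℂ → ℂ)
      (e : Fin n → Fin s → Fin p), 0 < p → (∀ l, CurveAt (z l) (φ l) (e l)) →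
      ∀ (K : IntermediateField ℚ ℂ) [NumberField K] (d : ℕ) (A w : ℝ), 0 < w → ∃ B T0 : ℝ, ∀ T ≥ T0, ∀ t : Fin n → K,
        (∀ l, mulHeight₁ (t l) ≤ T ∧ ‖(t l : ℂ) - z l‖ ≤ T ^ (-w)) →
          ¬ Rel (algebraMap K ℂ) (fun l k => vl (φ l) (e l) k) ξ d A B T t := by
  classical
  have hnn : Nonempty (Fin n) := ⟨⟨0, hn⟩⟩
  have hex : ∀ y : IxN n, ∃ E : Set (Fin n → ℂ), dimH E ≤ ((2 * (n - 1) : ℕ) : ℝ≥0∞) ∧
      ((∀ l, Crv (Bl (y.2.2.1 l)) (fun i => ((y.2.2.2 l).1 i).1) (y.2.2.2 l).2) → 0 < y.1 →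
      ∀ z ∉ E, (∀ l, z l ∈ Bl (y.2.2.1 l)) → ∀ (K : IntermediateField ℚ ℂ) [NumberField K] (d : ℕ) (A w : ℝ), 0 < w →
        ∃ B T0 : ℝ, ∀ T ≥ T0, ∀ t : Fin n → K, (∀ l, mulHeight₁ (t l) ≤ T ∧ ‖(t l : ℂ) - z l‖ ≤ T ^ (-w)) →
          ¬ Rel (algebraMap K ℂ) (fun l k => vl (fun i => ((y.2.2.2 l).1 i).1) (y.2.2.2 l).2 k) ξ d A B T t) := by
    intro y
    by_cases hy : (∀ l, Crv (Bl (y.2.2.1 l)) (fun i => ((y.2.2.2 l).1 i).1) (y.2.2.2 l).2) ∧ 0 < y.1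
    · obtain ⟨E, h1, h2⟩ := mainK (𝕜 := ℂ) (X := Fin n) (RingHom.id ℂ) (fun _ => rfl)
        (fun l k => vl (fun i => ((y.2.2.2 l).1 i).1) (y.2.2.2 l).2 k) ξ (fun l => Bl (y.2.2.1 l))
        (fun l => Bl_open _) (fun l => Bl_conn _)
        (fun l k t ht => vl_an (fun i => (hy.1 l).an i t ht) (fun i => (hy.1 l).im i t ht) k)
        (fun l P hP => by
          obtain ⟨t₀, ht₀⟩ := (hy.1 l).ne
          refine (hy.1 l).loc hy.2 t₀ ht₀ P ?_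
          filter_upwards [(Bl_open (y.2.2.1 l)).mem_nhds ht₀] with u hu
          exact hP u hu) hξ
      exact ⟨E, by simpa using h1, fun _ _ => h2⟩
    · exact ⟨∅, by simp, fun h1 h2 => absurd ⟨h1, h2⟩ hy⟩
  choose E hE1 hE2 using hex
  refine ⟨⋃ y, E y, ?_, ?_⟩
  · rw [dimH_iUnion]
    exact iSup_le hE1
  intro z hz p s φ e hp hφ K _ d A w hw
  choose b f hxb hC hf using fun l => (hφ l).index
  set y : IxN n := ⟨p, s, b, fun l => (f l, e l)⟩ with hy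
  have hzE : z ∉ E y := fun h => hz (Set.mem_iUnion.2 ⟨y, h⟩)
  obtain ⟨B, T0, hB⟩ := hE2 y hC hp z hzE hxb K d A w hw
  obtain ⟨T1, hT1, h1⟩ := mem_of_near (fun l => Bl (b l)) (fun l => Bl_open _) z hxb w hw
  refine ⟨B, max T0 T1, fun T hT t ht hrel => ?_⟩
  have hmem := h1 T ((le_max_right _ _).trans hT) (fun l => (t l : ℂ)) fun l => (ht l).2
  refine hB T ((le_max_left _ _).trans hT) t ht ?_
  obtain ⟨P, hP0, hPd, hPc, hPs⟩ := hrel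
  refine ⟨P, hP0, hPd, hPc, ?_⟩
  have e1 : (fun c : Fin n × ((Fin p × Fin 3) ⊕ Fin s) =>
      vl (fun i => ((f c.1) i).1) (e c.1) c.2 (algebraMap K ℂ (t c.1))) =
      fun c => vl (φ c.1) (e c.1) c.2 (algebraMap K ℂ (t c.1)) := by
    funext c
    exact vl_eq (fun i => hf c.1 i _ (hmem c.1)) c.2
  have e2 : ‖MvPolynomial.eval₂ (algebraMap K ℂ) (Sum.elim (fun c : Fin n × ((Fin p × Fin 3) ⊕ Fin s) =>
      vl (fun i => ((f c.1) i).1) (e c.1) c.2 (algebraMap K ℂ (t c.1))) fun c => ((ξ c : ℝ) : ℂ)) P‖ ≤ T ^ (-B) := by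
    rw [e1]
    exact hPs
  exact e2

end Pool.Agent.T2H95.NJ
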