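import Mathlib

/-!
# Functions with the same Schwarzian derivative
-/

set_option autoImplicit false

open Filter Topology

namespace Pool.Agent.T2H95.NJ

theorem const_of_deriv {B : Set ℂ} (hB : IsOpen B) (hc : IsPreconnected B) (hne : B.Nonempty) {f : ℂ → ℂ}
    (h : ∀ z ∈ B, HasDerivAt f 0 z) : ∃ k, ∀ z ∈ B, f z = k := by
  obtain ⟨w, hw⟩ := hne
  exact ⟨f w, fun z hz => hB.is_const_of_deriv_eq_zero hc (fun x hx => (h x hx).differentiableAt.differentiableWithinAt)
    (fun x hx => (h x hx).deriv) hz hw⟩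

/-- **Functions with the same Schwarzian derivative are related by a matrix.** -/
theorem mob_of_sch {B : Set ℂ} (hB : IsOpen B) (hc : IsPreconnected B) (hne : B.Nonempty)
    {a b a1 a2 a3 b1 b2 b3 : ℂ → ℂ}
    (ha1 : ∀ z ∈ B, HasDerivAt a (a1 z) z) (ha2 : ∀ z ∈ B, HasDerivAt a1 (a2 z) z)
    (ha3 : ∀ z ∈ B, HasDerivAt a2 (a3 z) z)
    (hb1 : ∀ z ∈ B, HasDerivAt b (b1 z) z) (hb2 : ∀ z ∈ B, HasDerivAt b1 (b2 z) z)
    (hb3 : ∀ z ∈ B, HasDerivAt b2 (b3 z) z)
    (na : ∀ z ∈ B, a1 z ≠ 0) (nb : ∀ z ∈ B, b1 z ≠ 0)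
    (hs : ∀ z ∈ B, a3 z / a1 z - 3 / 2 * (a2 z / a1 z) ^ 2 = b3 z / b1 z - 3 / 2 * (b2 z / b1 z) ^ 2) :
    ∃ p q r s : ℂ, p * s - q * r ≠ 0 ∧ ∀ z ∈ B, b z * (r * a z + s) = p * a z + q := by
  -- the polynomial form of the equation
  have hs' : ∀ z ∈ B, 2 * (a1 z * b1 z) * (a3 z * b1 z - a1 z * b3 z) =
      3 * (a2 z * b1 z - a1 z * b2 z) * (a2 z * b1 z + a1 z * b2 z) := by
    intro z hz
    have h1 := hs z hz
    have h2 := na z hz
    have h3 := nb z hz
    generalize a1 z = A1 at *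
    generalize a2 z = A2 at *
    generalize a3 z = A3 at *
    generalize b1 z = B1 at *
    generalize b2 z = B2 at *
    generalize b3 z = B3 at *
    field_simp at h1
    linear_combination h1
  have hE : ∀ z ∈ B, HasDerivAt (fun z => a2 z * b1 z - a1 z * b2 z) (a3 z * b1 z - a1 z * b3 z) z := by
    intro z hz
    have h1 := ((ha3 z hz).mul (hb2 z hz)).sub ((ha2 z hz).mul (hb3 z hz))
    refine h1.congr_deriv ?_
    ring
  -- the first constant
  obtain ⟨C, hC⟩ := const_of_deriv hB hc hne (f := fun z => (a2 z * b1 z - a1 z * b2 z) ^ 2 / (a1 z ^ 3 * b1 z ^ 3)) (by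
    intro z hz
    have h2 := na z hz
    have h3 := nb z hz
    have h1 := ((hE z hz).pow 2).div (((ha2 z hz).pow 3).mul ((hb2 z hz).pow 3))
      (mul_ne_zero (pow_ne_zero 3 h2) (pow_ne_zero 3 h3))
    refine HasDerivAt.congr_deriv (f := fun z => (a2 z * b1 z - a1 z * b2 z) ^ 2 / (a1 z ^ 3 * b1 z ^ 3)) h1 ?_
    have h4 := hs' z hz
    rw [div_eq_zero_iff]
    left
    push_cast
    simp only [Pi.mul_apply, Pi.pow_apply]
    linear_combination ((a2 z * b1 z - a1 z * b2 z) * a1 z ^ 2 * b1 z ^ 2) * h4)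
  have hC' : ∀ z ∈ B, (a2 z * b1 z - a1 z * b2 z) ^ 2 = C * (a1 z ^ 3 * b1 z ^ 3) := by
    intro z hz
    have h1 := hC z hz
    rwa [div_eq_iff (mul_ne_zero (pow_ne_zero 3 (na z hz)) (pow_ne_zero 3 (nb z hz)))] at h1
  by_cases hC0 : C = 0
  · have hE0 : ∀ z ∈ B, a2 z * b1 z - a1 z * b2 z = 0 := by
      intro z hz
      have h1 := hC' z hz
      rw [hC0, zero_mul] at h1
      exact pow_eq_zero_iff two_ne_zero |>.1 h1
    obtain ⟨u, hu⟩ := const_of_deriv hB hc hne (f := fun z => a1 z / b1 z) (by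
      intro z hz
      have h1 := (ha2 z hz).div (hb2 z hz) (nb z hz)
      refine HasDerivAt.congr_deriv (f := fun z => a1 z / b1 z) h1 ?_
      rw [hE0 z hz, zero_div])
    have hu' : ∀ z ∈ B, a1 z = u * b1 z := fun z hz => by
      have h1 := hu z hz
      rwa [div_eq_iff (nb z hz)] at h1
    have hu0 : u ≠ 0 := by
      obtain ⟨z, hz⟩ := hne
      intro h0
      have := hu' z hz
      rw [h0, zero_mul] at this
      exact na z hz this
    obtain ⟨k, hk⟩ := const_of_deriv hB hc hne (f := fun z => a z - u * b z) (by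
      intro z hz
      refine ((ha1 z hz).sub ((hb1 z hz).const_mul u)).congr_deriv ?_
      rw [hu' z hz, sub_self])
    refine ⟨1, -k, 0, u, by simpa using hu0, fun z hz => ?_⟩
    have := hk z hz
    linear_combination -this
  · have hE1 : ∀ z ∈ B, a2 z * b1 z - a1 z * b2 z ≠ 0 := by
      intro z hz h0
      have h1 := hC' z hz
      rw [h0] at h1
      exact mul_ne_zero hC0 (mul_ne_zero (pow_ne_zero 3 (na z hz)) (pow_ne_zero 3 (nb z hz))) (by rw [← h1]; ring)
    -- `w = E / (a1 b1 ^ 2)`, `w' = C a1 / 2`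
    have hw : ∀ z ∈ B, HasDerivAt (fun z => (a2 z * b1 z - a1 z * b2 z) / (a1 z * b1 z ^ 2)) (C * a1 z / 2) z := by
      intro z hz
      have h2 := na z hz
      have h3 := nb z hz
      have h1 := (hE z hz).div ((ha2 z hz).mul ((hb2 z hz).pow 2)) (mul_ne_zero h2 (pow_ne_zero 2 h3))
      refine HasDerivAt.congr_deriv (f := fun z => (a2 z * b1 z - a1 z * b2 z) / (a1 z * b1 z ^ 2)) h1 ?_
      have h4 := hs' z hz
      have h5 := hC' z hz
      push_cast
      simp only [Pi.mul_apply, Pi.pow_apply]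
      rw [div_eq_iff (pow_ne_zero 2 (mul_ne_zero h2 (pow_ne_zero 2 h3)))]
      apply mul_left_cancel₀ (mul_ne_zero h2 h3)
      linear_combination (a1 z * b1 z ^ 2 / 2) * h4 + (a1 z * b1 z ^ 2 / 2) * h5
    obtain ⟨e, he⟩ := const_of_deriv hB hc hne
      (f := fun z => (a2 z * b1 z - a1 z * b2 z) / (a1 z * b1 z ^ 2) - C / 2 * a z) (by
      intro z hz
      refine ((hw z hz).sub ((ha1 z hz).const_mul (C / 2))).congr_deriv ?_
      ring)
    have he' : ∀ z ∈ B, (a2 z * b1 z - a1 z * b2 z) = (C / 2 * a z + e) * (a1 z * b1 z ^ 2) := by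
      intro z hz
      have h1 := he z hz
      rw [sub_eq_iff_eq_add] at h1
      rw [div_eq_iff (mul_ne_zero (na z hz) (pow_ne_zero 2 (nb z hz)))] at h1
      rw [h1]
      ring
    have hne1 : ∀ z ∈ B, C / 2 * a z + e ≠ 0 := by
      intro z hz h0
      apply hE1 z hz
      rw [he' z hz, h0, zero_mul]
    obtain ⟨k, hk⟩ := const_of_deriv hB hc hne (f := fun z => b z + 2 / (C / 2 * a z + e)) (by
      intro z hz
      have h1 := ((ha1 z hz).const_mul (C / 2)).add_const e
      have h2 := (hb1 z hz).add (((hasDerivAt_const z (2 : ℂ))).div h1 (hne1 z hz))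
      refine HasDerivAt.congr_deriv (f := fun z => b z + 2 / (C / 2 * a z + e)) h2 ?_
      have h3 := hC' z hz
      rw [he' z hz] at h3
      have h4 := hne1 z hz
      have h5 : (C / 2 * a z + e) ^ 2 * b1 z = C * a1 z := by
        have : ((C / 2 * a z + e) ^ 2 * b1 z - C * a1 z) * (a1 z ^ 2 * b1 z ^ 3) = 0 := by
          linear_combination h3
        exact sub_eq_zero.1 ((mul_eq_zero.1 this).resolve_right
          (mul_ne_zero (pow_ne_zero 2 (na z hz)) (pow_ne_zero 3 (nb z hz))))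
      have h6 : (0 * (C / 2 * a z + e) - 2 * (C / 2 * a1 z)) / (C / 2 * a z + e) ^ 2 =
          -(C * a1 z) / (C / 2 * a z + e) ^ 2 := by
        congr 1
        ring
      rw [h6, ← h5, neg_div, mul_comm _ (b1 z), mul_div_assoc, div_self (pow_ne_zero 2 h4), mul_one, add_neg_cancel])
    refine ⟨C / 2 * k, k * e - 2, C / 2, e, ?_, fun z hz => ?_⟩
    · have : C / 2 * k * e - (k * e - 2) * (C / 2) = C := by ring
      rw [this]
      exact hC0
    · have h1 := hk z hz
      have h2 := hne1 z hz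
      have h3 : b z = k - 2 / (C / 2 * a z + e) := by rw [← h1]; ring
      rw [h3, sub_mul, div_mul_cancel₀ _ h2]
      ring

end Pool.Agent.T2H95.NJ
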