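import Pool.Agent.T2H95.NJ.SchA
import Pool.Agent.T2H95.NJ.JFacts

/-!
# `j (τ_0)`, `j (τ_1)` are algebraically independent for algebraic functions `τ_0`, `τ_1` which are not related by a
rational matrix
-/

set_option autoImplicit false

open Filter Topology MvPolynomial

noncomputable section

namespace Pool.Agent.T2H95.NJ

open Pool.Agent.Y685 Pool.Agent.Y776 Pool.Agent.Y776.AxJ
open Pool.Agent.Y776.Cv (FInd)

variable {U : Set ℂ} {τ : Fin 2 → ℂ → ℂ} {G : Set ℂ}

/-- the complement of a countable set is dense -/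
theorem closed_all {B : Set ℂ} (hB : IsOpen B) {f g : ℂ → ℂ} (hf : ContinuousOn f B) (hg : ContinuousOn g B)
    (hc : {z | z ∈ B ∧ ¬ f z = g z}.Countable) : ∀ z ∈ B, f z = g z := by
  intro z hz
  by_contra hne
  have h1 : ∀ᶠ w in 𝓝 z, f w ≠ g w ∧ w ∈ B := by
    have h2 : ContinuousAt (fun w => f w - g w) z := (hf.continuousAt (hB.mem_nhds hz)).sub (hg.continuousAt (hB.mem_nhds hz))
    have h3 := h2.eventually_ne (sub_ne_zero.2 hne)
    filter_upwards [h3, hB.mem_nhds hz] with w hw hw'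
    exact ⟨sub_ne_zero.1 hw, hw'⟩
  obtain ⟨O, hO, hOo, hzO⟩ := eventually_nhds_iff.1 h1
  refine not_countable_of_open hOo ⟨z, hzO⟩ (hc.mono ?_)
  intro w hw
  exact ⟨(hO w hw).2, (hO w hw).1⟩

/-- **the matrix** -/
theorem Pr.mob (h : Pr U τ G) {Q : MvPolynomial (Fin 2) ℂ} (hne : Q ≠ 0)
    (hQ : ∀ z ∈ U, eval (fun m => jf (τ m z)) Q = 0) :
    ∃ p q r s : ℂ, p * s - q * r ≠ 0 ∧ ∀ z ∈ U, τ 1 z * (r * τ 0 z + s) = p * τ 0 z + q := by
  classical
  have hcount := h.sch hne hQ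
  -- a ball on which the derivatives have no zeros
  obtain ⟨z₁, hz₁, hd0, hd1⟩ : ∃ z ∈ U, deriv (τ 0) z ≠ 0 ∧ deriv (τ 1) z ≠ 0 := by
    have c3 := Pool.Agent.Y776.Fam.countable_fam h.conn (ι := Fin 2) (fun i => deriv (τ i)) (fun i => (h.an i).deriv)
      (fun i => deriv_ne h.op h.conn h.ne (h.an i) (h.nc i))
    obtain ⟨z, hz, hn⟩ := Pool.Agent.Y776.Fam.exists_notMem h.op h.ne c3
    exact ⟨z, hz, fun h0 => hn ⟨hz, 0, h0⟩, fun h0 => hn ⟨hz, 1, h0⟩⟩
  have hcd : ∀ i, ContinuousAt (deriv (τ i)) z₁ := fun i => ((h.an i).deriv z₁ hz₁).continuousAt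
  have hev : ∀ᶠ z in 𝓝 z₁, z ∈ U ∧ deriv (τ 0) z ≠ 0 ∧ deriv (τ 1) z ≠ 0 := by
    filter_upwards [h.op.mem_nhds hz₁, (hcd 0).eventually_ne hd0, (hcd 1).eventually_ne hd1] with z a b c
    exact ⟨a, b, c⟩
  obtain ⟨ε, hε, hball⟩ := Metric.eventually_nhds_iff_ball.1 hev
  set B := Metric.ball z₁ ε with hB
  have hBU : B ⊆ U := fun z hz => (hball z hz).1
  have hder : ∀ (i : Fin 2) (k : ℕ), ∀ z ∈ U, HasDerivAt (deriv^[k] (τ i)) (deriv^[k + 1] (τ i) z) z := by
    intro i k z hz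
    rw [Function.iterate_succ_apply']
    exact ((h.an i).iterated_deriv k z hz).differentiableAt.hasDerivAt
  have hcont : ∀ (i : Fin 2) (k : ℕ), ContinuousOn (deriv^[k] (τ i)) B := fun i k z hz =>
    (hder i k z (hBU hz)).continuousAt.continuousWithinAt
  have hS : ∀ z ∈ B, deriv (deriv (deriv (τ 1))) z / deriv (τ 1) z - 3 / 2 * (deriv (deriv (τ 1)) z / deriv (τ 1) z) ^ 2 =
      deriv (deriv (deriv (τ 0))) z / deriv (τ 0) z - 3 / 2 * (deriv (deriv (τ 0)) z / deriv (τ 0) z) ^ 2 := by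
    have hc : ∀ i, ContinuousOn (fun z => deriv (deriv (deriv (τ i))) z / deriv (τ i) z -
        3 / 2 * (deriv (deriv (τ i)) z / deriv (τ i) z) ^ 2) B := by
      intro i
      have hne : ∀ z ∈ B, deriv (τ i) z ≠ 0 := by
        intro z hz
        fin_cases i
        · exact (hball z hz).2.1
        · exact (hball z hz).2.2
      have e1 : ContinuousOn (deriv (τ i)) B := hcont i 1
      have e2 : ContinuousOn (deriv (deriv (τ i))) B := hcont i 2
      have e3 : ContinuousOn (deriv (deriv (deriv (τ i)))) B := hcont i 3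
      exact (e3.div e1 hne).sub (continuousOn_const.mul ((e2.div e1 hne).pow 2))
    refine closed_all Metric.isOpen_ball (hc 1) (hc 0) (hcount.mono ?_)
    rintro z ⟨hz1, hz2⟩
    exact ⟨hBU hz1, hz2⟩
  obtain ⟨p, q, r, s, hdet, hrel⟩ := mob_of_sch (B := B) Metric.isOpen_ball (convex_ball _ _).isPreconnected
    ⟨z₁, Metric.mem_ball_self hε⟩ (a := τ 0) (b := τ 1)
    (fun z hz => hder 0 0 z (hBU hz)) (fun z hz => hder 0 1 z (hBU hz)) (fun z hz => hder 0 2 z (hBU hz))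
    (fun z hz => hder 1 0 z (hBU hz)) (fun z hz => hder 1 1 z (hBU hz)) (fun z hz => hder 1 2 z (hBU hz))
    (fun z hz => (hball z hz).2.1) (fun z hz => (hball z hz).2.2) (fun z hz => (hS z hz).symm)
  refine ⟨p, q, r, s, hdet, ?_⟩
  have han : AnalyticOnNhd ℂ (fun z => τ 1 z * (r * τ 0 z + s) - (p * τ 0 z + q)) U := by
    intro z hz
    have a0 := h.an 0 z hz
    have a1 := h.an 1 z hz
    exact (a1.mul ((analyticAt_const.mul a0).add analyticAt_const)).sub ((analyticAt_const.mul a0).add analyticAt_const)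
  have hev2 : (fun z => τ 1 z * (r * τ 0 z + s) - (p * τ 0 z + q)) =ᶠ[𝓝 z₁] 0 := by
    filter_upwards [Metric.ball_mem_nhds z₁ hε] with z hz
    exact sub_eq_zero.2 (hrel z hz)
  have h0 := han.eqOn_zero_of_preconnected_of_eventuallyEq_zero h.conn hz₁ hev2
  exact fun z hz => sub_eq_zero.1 (h0 hz)

/-- the image of an open set contains an open set -/
theorem Pr.exists_open (h : Pr U τ G) : ∃ W : Set ℂ, IsOpen W ∧ W.Nonempty ∧ W ⊆ τ 0 '' U := by
  obtain ⟨z₁, hz₁, hd⟩ := deriv_ne h.op h.conn h.ne (h.an 0) (h.nc 0)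
  have h1 : HasStrictDerivAt (τ 0) (deriv (τ 0) z₁) z₁ := (h.an 0 z₁ hz₁).hasStrictDerivAt
  have h2 := h1.map_nhds_eq hd
  have h3 : τ 0 '' U ∈ 𝓝 (τ 0 z₁) := by
    rw [← h2]
    exact Filter.image_mem_map (h.op.mem_nhds hz₁)
  exact ⟨interior (τ 0 '' U), isOpen_interior, ⟨_, mem_interior_iff_mem_nhds.2 h3⟩, interior_subset⟩

/-- **Theorem on pairs of algebraic functions.** -/
theorem Pr.rational (h : Pr U τ G) {Q : MvPolynomial (Fin 2) ℂ} (hne : Q ≠ 0)
    (hQ : ∀ z ∈ U, eval (fun m => jf (τ m z)) Q = 0) :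
    ∃ p q r s : ℚ, p * s - q * r ≠ 0 ∧ ∀ z ∈ U, τ 1 z * ((r : ℂ) * τ 0 z + s) = (p : ℂ) * τ 0 z + q := by
  obtain ⟨p, q, r, s, hdet, hrel⟩ := h.mob hne hQ
  obtain ⟨W, hWo, hWne, hWU⟩ := h.exists_open
  have hpt : ∀ w ∈ W, ∃ z ∈ U, τ 0 z = w ∧ r * w + s ≠ 0 ∧ τ 1 z = (p * w + q) / (r * w + s) := by
    intro w hw
    obtain ⟨z, hz, rfl⟩ := hWU hw
    have h1 := hrel z hz
    have h2 : r * τ 0 z + s ≠ 0 := by
      intro h0
      rw [h0, mul_zero] at h1
      apply hdet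
      by_cases hr : r = 0
      · have hs : s = 0 := by rw [hr, zero_mul, zero_add] at h0; exact h0
        rw [hr, hs]
        ring
      · have : r * (p * τ 0 z + q) = p * (r * τ 0 z + s) - (p * s - q * r) := by ring
        rw [← h1, h0] at this
        linear_combination this
    exact ⟨z, hz, rfl, h2, by rw [eq_div_iff h2]; exact h1⟩
  have hD : Dt jf T0 p q r s W Q :=
    { jp := jpj
      det := hdet
      op := hWo
      ne := hWne
      dom := fun w hw => by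
        obtain ⟨z, hz, e1, e2, e3⟩ := hpt w hw
        refine ⟨by rw [← e1]; exact h.im 0 z hz, hf_pos_iff.2 ⟨e2, ?_⟩⟩
        rw [← e3]
        exact h.im 1 z hz
      q0 := hne
      rel := fun w hw => by
        obtain ⟨z, hz, e1, e2, e3⟩ := hpt w hw
        rw [Rl, ← e3, ← hQ z hz, ← e1]
        congr 2
        funext m
        fin_cases m <;> rfl }
  obtain ⟨l, p', q', r', s', hl, ep, eq, er, es⟩ := hD.rational
  refine ⟨p', q', r', s', ?_, fun z hz => ?_⟩
  · intro h0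
    apply hdet
    have h0' : (p' : ℂ) * s' - q' * r' = 0 := by exact_mod_cast h0
    rw [ep, eq, er, es]
    linear_combination l ^ 2 * h0'
  · have h1 := hrel z hz
    rw [ep, eq, er, es] at h1
    apply mul_left_cancel₀ hl
    linear_combination h1

end Pool.Agent.T2H95.NJ
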