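import Mathlib

/-!
# A relation between `J (w)` and `J (g w)` on a set which is stable under `w ↦ w + 1`

Here `J` is a function on the upper half-plane with the formal properties of the modular invariant.
-/

set_option autoImplicit false

open Filter Topology

namespace Pool.Agent.T2H95.NJ

/-- the properties of the modular invariant which are used -/
structure JP (J : ℂ → ℂ) (N : Set ℂ) : Prop where
  an : AnalyticOnNhd ℂ J {τ : ℂ | 0 < τ.im}
  inv : ∀ a b c d : ℤ, a * d - b * c = 1 → ∀ τ : ℂ, 0 < τ.im →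
    J (((a : ℂ) * τ + b) / ((c : ℂ) * τ + d)) = J τ
  cnt : N.Countable
  sep : ∀ τ τ' : ℂ, 0 < τ.im → 0 < τ'.im → τ ∉ N → τ' ∉ N → J τ = J τ' →
    ∃ a b c d : ℤ, a * d - b * c ≠ 0 ∧ τ' * ((c : ℂ) * τ + d) = (a : ℂ) * τ + b
  fib : ∀ v : ℂ, {τ : ℂ | 0 < τ.im ∧ J τ = v}.Countable

variable {J : ℂ → ℂ} {N : Set ℂ}

theorem JP.add_one (h : JP J N) {τ : ℂ} (hτ : 0 < τ.im) : J (τ + 1) = J τ := by
  have := h.inv 1 1 0 1 (by norm_num) τ hτ
  simpa using this

theorem JP.add_nat (h : JP J N) {τ : ℂ} (hτ : 0 < τ.im) (n : ℕ) : J (τ + n) = J τ := by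
  induction n with
  | zero => simp
  | succ n ih =>
    have h1 : 0 < (τ + (n : ℂ)).im := by simpa using hτ
    have h2 := h.add_one h1
    rw [← ih, ← h2]
    congr 1
    push_cast
    ring

/-- open sets are not countable -/
theorem not_countable_of_open {C : Set ℂ} (hC : IsOpen C) (hne : C.Nonempty) : ¬ C.Countable := by
  intro h
  have h1 : Dense Cᶜ := h.dense_compl ℂ
  obtain ⟨x, hx, hx'⟩ := h1.inter_open_nonempty C hC hne
  exact hx' hx

/-- the algebra -/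
theorem alg_main {a b c d s1 s2 s3 s4 n : ℂ} (hΔ : a * d - b * c ≠ 0) (_hn : n ≠ 0) (hs : s1 * s4 - s2 * s3 ≠ 0)
    (e2 : s3 * a ^ 2 + (s4 - s1) * (a * c) - s2 * c ^ 2 = 0)
    (e1 : 2 * s3 * (a * b) + (s4 - s1) * (a * d + b * c) - 2 * s2 * (c * d) = 0)
    (e0 : s3 * b ^ 2 + (s4 - s1) * (b * d) - s2 * d ^ 2 + n * (a * (s3 * b + s4 * d) - c * (s1 * b + s2 * d)) = 0) :
    s1 + s4 ≠ 0 ∧ 2 * s2 * (a * d - b * c) = n * (s1 + s4) * a ^ 2 ∧
      2 * s3 * (a * d - b * c) = -(n * (s1 + s4) * c ^ 2) ∧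
      (s4 - s1) * (a * d - b * c) = n * (s1 + s4) * (a * c) := by
  set Δ := a * d - b * c with hΔd
  set K := s3 * b ^ 2 + (s4 - s1) * (b * d) - s2 * d ^ 2 with hK
  have f3 : s3 * Δ ^ 2 = c ^ 2 * K := by
    rw [hK, hΔd]
    linear_combination d ^ 2 * e2 - c * d * e1
  have f2 : s2 * Δ ^ 2 = -(a ^ 2 * K) := by
    rw [hK, hΔd]
    linear_combination -(b ^ 2) * e2 + a * b * e1
  have f1 : (s4 - s1) * Δ ^ 2 = -(2 * (a * c) * K) := by
    rw [hK, hΔd]
    linear_combination (-2 * b * d) * e2 + (a * d + b * c) * e1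
  have g : 2 * K + n * ((s1 + s4) * Δ) = 0 := by
    rw [hΔd]
    linear_combination 2 * e0 - n * e1
  have g' : K = -(n * (s1 + s4) * Δ) / 2 := by
    linear_combination g / 2
  have r2 : 2 * s2 * Δ = n * (s1 + s4) * a ^ 2 := by
    apply mul_right_cancel₀ hΔ
    rw [g'] at f2
    linear_combination 2 * f2
  have r3 : 2 * s3 * Δ = -(n * (s1 + s4) * c ^ 2) := by
    apply mul_right_cancel₀ hΔ
    rw [g'] at f3
    linear_combination 2 * f3
  have r1 : (s4 - s1) * Δ = n * (s1 + s4) * (a * c) := by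
    apply mul_right_cancel₀ hΔ
    rw [g'] at f1
    linear_combination f1
  refine ⟨fun ht => ?_, r2, r3, r1⟩
  rw [ht] at r2 r3 r1
  have q2 : s2 = 0 := by
    have : s2 * (2 * Δ) = 0 := by linear_combination r2
    exact (mul_eq_zero.1 this).resolve_right (mul_ne_zero two_ne_zero hΔ)
  have q1 : s4 = s1 := by
    have : (s4 - s1) * Δ = 0 := by linear_combination r1
    exact sub_eq_zero.1 ((mul_eq_zero.1 this).resolve_right hΔ)
  apply hs
  rw [q2, q1]
  have : s1 = 0 := by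
    rw [q1] at ht
    linear_combination ht / 2
  rw [this]
  ring

/-- the nonzero polynomials in two variables -/
theorem exists_val {Q : MvPolynomial (Fin 2) ℂ} (hQ : Q ≠ 0) : ∃ x y : ℂ, MvPolynomial.eval ![x, y] Q ≠ 0 := by
  by_contra hcon
  push Not at hcon
  apply hQ
  refine MvPolynomial.funext fun v => ?_
  rw [map_zero, ← hcon (v 0) (v 1)]
  congr 2
  funext i
  fin_cases i <;> rfl

/-- the polynomial in the second variable -/
noncomputable def qy (Q : MvPolynomial (Fin 2) ℂ) (x : ℂ) : Polynomial ℂ :=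
  MvPolynomial.aeval ![Polynomial.C x, Polynomial.X] Q

theorem qy_eval (Q : MvPolynomial (Fin 2) ℂ) (x y : ℂ) : (qy Q x).eval y = MvPolynomial.eval ![x, y] Q := by
  have h : ((Polynomial.aeval y : Polynomial ℂ →ₐ[ℂ] ℂ).comp
      (MvPolynomial.aeval (R := ℂ) (![Polynomial.C x, Polynomial.X] : Fin 2 → Polynomial ℂ))) =
      MvPolynomial.aeval (R := ℂ) ![x, y] := by
    apply MvPolynomial.algHom_ext
    intro i
    fin_cases i <;> simp
  have h2 := congrArg (fun f : MvPolynomial (Fin 2) ℂ →ₐ[ℂ] ℂ => f Q) h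
  simp only [AlgHom.comp_apply] at h2
  rw [qy, ← Polynomial.coe_aeval_eq_eval, h2]
  rfl

theorem qy_deg (Q : MvPolynomial (Fin 2) ℂ) (x : ℂ) : (qy Q x).natDegree ≤ Q.totalDegree := by
  have h := MvPolynomial.aeval_natDegree_le (n := 1) Q le_rfl
    (![Polynomial.C x, Polynomial.X] : Fin 2 → Polynomial ℂ) (by
      intro i
      fin_cases i <;> simp)
  simpa [qy] using h

/-- the polynomial in the first variable -/
noncomputable def qx (Q : MvPolynomial (Fin 2) ℂ) (y : ℂ) : Polynomial ℂ :=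
  MvPolynomial.aeval ![Polynomial.X, Polynomial.C y] Q

theorem qx_eval (Q : MvPolynomial (Fin 2) ℂ) (x y : ℂ) : (qx Q y).eval x = MvPolynomial.eval ![x, y] Q := by
  have h : ((Polynomial.aeval x : Polynomial ℂ →ₐ[ℂ] ℂ).comp
      (MvPolynomial.aeval (R := ℂ) (![Polynomial.X, Polynomial.C y] : Fin 2 → Polynomial ℂ))) =
      MvPolynomial.aeval (R := ℂ) ![x, y] := by
    apply MvPolynomial.algHom_ext
    intro i
    fin_cases i <;> simp
  have h2 := congrArg (fun f : MvPolynomial (Fin 2) ℂ →ₐ[ℂ] ℂ => f Q) h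
  simp only [AlgHom.comp_apply] at h2
  rw [qx, ← Polynomial.coe_aeval_eq_eval, h2]
  rfl

/-- outside a countable set the polynomial is not zero -/
theorem countable_qy (h : JP J N) {Q : MvPolynomial (Fin 2) ℂ} (hQ : Q ≠ 0) :
    {w : ℂ | 0 < w.im ∧ qy Q (J w) = 0}.Countable := by
  obtain ⟨x, y, hxy⟩ := exists_val hQ
  have hne : qx Q y ≠ 0 := by
    intro h0
    apply hxy
    rw [← qx_eval, h0, Polynomial.eval_zero]
  refine ((Set.Finite.countable (Finset.finite_toSet (qx Q y).roots.toFinset)).biUnion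
    (t := fun v _ => {τ : ℂ | 0 < τ.im ∧ J τ = v}) fun v _ => h.fib v).mono ?_
  rintro w ⟨hw, hw0⟩
  rw [Set.mem_iUnion₂]
  refine ⟨J w, ?_, hw, rfl⟩
  rw [Finset.mem_coe, Multiset.mem_toFinset, Polynomial.mem_roots hne, Polynomial.IsRoot.def, qx_eval, ← qy_eval, hw0,
    Polynomial.eval_zero]

/-- quadratic polynomials with infinitely many zeros -/
theorem quad_zero {p2 p1 p0 : ℂ} {S : Set ℂ} (hS : S.Infinite) (h : ∀ w ∈ S, p2 * w ^ 2 + p1 * w + p0 = 0) :
    p2 = 0 ∧ p1 = 0 ∧ p0 = 0 := by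
  have h1 : (Polynomial.C p2 * Polynomial.X ^ 2 + Polynomial.C p1 * Polynomial.X + Polynomial.C p0 : Polynomial ℂ) = 0 := by
    refine Polynomial.eq_zero_of_infinite_isRoot _ (hS.mono fun w hw => ?_)
    show Polynomial.IsRoot _ w
    rw [Polynomial.IsRoot.def]
    simpa using h w hw
  have c2 := congrArg (fun p : Polynomial ℂ => p.coeff 2) h1
  have c1 := congrArg (fun p : Polynomial ℂ => p.coeff 1) h1
  have c0 := congrArg (fun p : Polynomial ℂ => p.coeff 0) h1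
  simp [Polynomial.coeff_X, Polynomial.coeff_C] at c2 c1 c0
  exact ⟨c2, c1, c0⟩

theorem clear_den {X1 Y1 X2 Y2 s1 s2 s3 s4 : ℂ} (h1 : Y1 ≠ 0) (h2 : Y2 ≠ 0)
    (he : X2 / Y2 * (s3 * (X1 / Y1) + s4) = s1 * (X1 / Y1) + s2) :
    X2 * (s3 * X1 + s4 * Y1) = Y2 * (s1 * X1 + s2 * Y1) := by
  have e1 : X1 / Y1 * Y1 = X1 := div_mul_cancel₀ _ h1
  have e2 : X2 / Y2 * Y2 = X2 := div_mul_cancel₀ _ h2
  set x := X1 / Y1
  set y := X2 / Y2
  rw [← e1, ← e2]
  linear_combination (Y1 * Y2) * he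

/-- **Relations on a set stable under `w ↦ w + 1`.** -/
theorem pig (h : JP J N) {a b c d : ℂ} (hΔ : a * d - b * c ≠ 0) {C : Set ℂ} (hC : IsOpen C) (hne : C.Nonempty)
    (hH : ∀ w ∈ C, 0 < w.im) (hT : ∀ w ∈ C, w + 1 ∈ C) (hden : ∀ w ∈ C, c * w + d ≠ 0)
    (him : ∀ w ∈ C, 0 < ((a * w + b) / (c * w + d)).im) {Q : MvPolynomial (Fin 2) ℂ} (hQ : Q ≠ 0)
    (hrel : ∀ w ∈ C, MvPolynomial.eval ![J w, J ((a * w + b) / (c * w + d))] Q = 0) :
    ∃ r1 r2 r3 : ℚ, a ^ 2 = r1 * (a * d - b * c) ∧ a * c = r2 * (a * d - b * c) ∧ c ^ 2 = r3 * (a * d - b * c) := by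
  classical
  set g : ℂ → ℂ := fun w => (a * w + b) / (c * w + d) with hg
  have hTn : ∀ (n : ℕ), ∀ w ∈ C, w + n ∈ C := by
    intro n
    induction n with
    | zero => intro w hw; simpa using hw
    | succ n ih =>
      intro w hw
      have := hT _ (ih w hw)
      push_cast
      rwa [add_assoc] at this
  -- the bad points
  have hbad1 := countable_qy h hQ
  have hinj : ∀ (i : ℕ), ∀ w ∈ C, ∀ w' ∈ C, g (w + i) = g (w' + i) → w = w' := by
    intro i w hw w' hw' he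
    have h1 := hden _ (hTn i w hw)
    have h2 := hden _ (hTn i w' hw')
    simp only [hg] at he
    rw [div_eq_div_iff h1 h2] at he
    have : (a * d - b * c) * (w - w') = 0 := by linear_combination he
    exact sub_eq_zero.1 ((mul_eq_zero.1 this).resolve_left hΔ)
  have hbad2 : {w | w ∈ C ∧ ∃ i : ℕ, g (w + i) ∈ N}.Countable := by
    have h1 : ∀ i : ℕ, {w | w ∈ C ∧ g (w + i) ∈ N}.Countable := by
      intro i
      refine Set.MapsTo.countable_of_injOn (f := fun w => g (w + i)) (t := N) (fun w hw => hw.2) ?_ h.cnt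
      intro w hw w' hw' he
      exact hinj i w hw.1 w' hw'.1 he
    refine (Set.countable_iUnion h1).mono ?_
    rintro w ⟨hw, i, hi⟩
    exact Set.mem_iUnion.2 ⟨i, hw, hi⟩
  set G : Set ℂ := {w | w ∈ C ∧ qy Q (J w) ≠ 0 ∧ ∀ i : ℕ, g (w + i) ∉ N} with hGdef
  have hGunc : ¬ G.Countable := by
    intro hGc
    apply not_countable_of_open hC hne
    refine ((hGc.union hbad1).union hbad2).mono fun w hw => ?_
    by_cases h1 : qy Q (J w) = 0
    · exact Or.inl (Or.inr ⟨hH w hw, h1⟩)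
    · by_cases h2 : ∃ i : ℕ, g (w + i) ∈ N
      · exact Or.inr ⟨hw, h2⟩
      · push Not at h2
        exact Or.inl (Or.inl ⟨hw, h1, h2⟩)
  -- the relation for one index
  let I : Type := (ℕ × ℕ) × (ℤ × ℤ × ℤ × ℤ)
  let S : I → Set ℂ := fun x => {w | w ∈ C ∧ x.1.1 ≠ x.1.2 ∧
    x.2.1 * x.2.2.2.2 - x.2.2.1 * x.2.2.2.1 ≠ 0 ∧
    g (w + x.1.2) * ((x.2.2.2.1 : ℂ) * g (w + x.1.1) + x.2.2.2.2) = (x.2.1 : ℂ) * g (w + x.1.1) + x.2.2.1}
  have hcover : G ⊆ ⋃ x, S x := by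
    rintro w ⟨hw, hq, hN⟩
    set R := (qy Q (J w)).roots.toFinset with hR
    have hmaps : Set.MapsTo (fun i : ℕ => J (g (w + i))) (↑(Finset.range (Q.totalDegree + 1)) : Set ℕ) ↑R := by
      intro i _
      rw [Finset.mem_coe, hR, Multiset.mem_toFinset, Polynomial.mem_roots hq, Polynomial.IsRoot.def, qy_eval,
        ← h.add_nat (hH w hw) i]
      exact hrel _ (hTn i w hw)
    have hcard : R.card < (Finset.range (Q.totalDegree + 1)).card := by
      rw [Finset.card_range]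
      have h1 : R.card ≤ (qy Q (J w)).roots.card := Multiset.toFinset_card_le _
      have h2 := Polynomial.card_roots' (qy Q (J w))
      have h3 := qy_deg Q (J w)
      omega
    obtain ⟨i, -, k, -, hik, he⟩ := Finset.exists_ne_map_eq_of_card_lt_of_maps_to hcard hmaps
    obtain ⟨s1, s2, s3, s4, hs, hs'⟩ := h.sep _ _ (him _ (hTn i w hw)) (him _ (hTn k w hw)) (hN i) (hN k) he
    exact Set.mem_iUnion.2 ⟨((i, k), (s1, s2, s3, s4)), hw, hik, hs, hs'⟩
  obtain ⟨x, hx⟩ : ∃ x, ¬ (S x).Countable := by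
    by_contra hcon
    push Not at hcon
    exact hGunc ((Set.countable_iUnion hcon).mono hcover)
  obtain ⟨⟨i, k⟩, s1, s2, s3, s4⟩ := x
  have hinf : (S ((i, k), (s1, s2, s3, s4))).Infinite := fun hf => hx hf.countable
  obtain ⟨w₀, hw₀⟩ := hinf.nonempty
  have hik : i ≠ k := hw₀.2.1
  have hs : s1 * s4 - s2 * s3 ≠ 0 := hw₀.2.2.1
  set b' := a * i + b with hb'
  set d' := c * i + d with hd'
  set n : ℂ := (k : ℂ) - i with hn
  have hn0 : n ≠ 0 := by
    rw [hn, sub_ne_zero]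
    exact_mod_cast hik.symm
  have hΔ' : a * d' - b' * c ≠ 0 := by
    have : a * d' - b' * c = a * d - b * c := by rw [hb', hd']; ring
    rwa [this]
  obtain ⟨e2, e1, e0⟩ := quad_zero (p2 := (s3 : ℂ) * a ^ 2 + (s4 - s1) * (a * c) - s2 * c ^ 2)
    (p1 := 2 * (s3 : ℂ) * (a * b') + (s4 - s1) * (a * d' + b' * c) - 2 * s2 * (c * d') +
      n * (a * (s3 * a + s4 * c) - c * (s1 * a + s2 * c)))
    (p0 := (s3 : ℂ) * b' ^ 2 + (s4 - s1) * (b' * d') - s2 * d' ^ 2 +
      n * (a * (s3 * b' + s4 * d') - c * (s1 * b' + s2 * d'))) hinf (by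
      rintro w ⟨hw, -, -, he⟩
      have h1 := hden _ (hTn i w hw)
      have h2 := hden _ (hTn k w hw)
      simp only [hg] at he
      have h1' : c * (w + (i : ℂ)) + d = c * w + d' := by rw [hd']; ring
      have h1a : a * (w + (i : ℂ)) + b = a * w + b' := by rw [hb']; ring
      have h2' : c * (w + (k : ℂ)) + d = c * w + d' + n * c := by rw [hd', hn]; ring
      have h2a : a * (w + (k : ℂ)) + b = a * w + b' + n * a := by rw [hb', hn]; ring
      rw [h1'] at h1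
      rw [h2'] at h2
      rw [h1', h1a, h2', h2a] at he
      have h3 := clear_den h1 h2 he
      linear_combination h3)
  have e1' : 2 * (s3 : ℂ) * (a * b') + (s4 - s1) * (a * d' + b' * c) - 2 * s2 * (c * d') = 0 := by
    linear_combination e1 - n * e2
  have hsC : (s1 : ℂ) * s4 - s2 * s3 ≠ 0 := by exact_mod_cast hs
  obtain ⟨ht, r2, r3, r1⟩ := alg_main hΔ' hn0 hsC e2 e1' e0
  have hΔe : a * d' - b' * c = a * d - b * c := by rw [hb', hd']; ring
  rw [hΔe] at r2 r3 r1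
  have hnq : n = (((k : ℤ) - i : ℤ) : ℂ) := by rw [hn]; push_cast; ring
  have hm : n * ((s1 : ℂ) + s4) ≠ 0 := mul_ne_zero hn0 ht
  refine ⟨(2 * s2 : ℚ) / ((((k : ℤ) - i : ℤ) : ℚ) * (s1 + s4)), (s4 - s1 : ℚ) / ((((k : ℤ) - i : ℤ) : ℚ) * (s1 + s4)),
    (-(2 * s3) : ℚ) / ((((k : ℤ) - i : ℤ) : ℚ) * (s1 + s4)), ?_, ?_, ?_⟩
  · push_cast
    rw [hn] at hm r2
    rw [div_mul_eq_mul_div, eq_div_iff (by exact_mod_cast hm)]
    linear_combination -r2
  · push_cast
    rw [hn] at hm r1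
    rw [div_mul_eq_mul_div, eq_div_iff (by exact_mod_cast hm)]
    linear_combination -r1
  · push_cast
    rw [hn] at hm r3
    rw [div_mul_eq_mul_div, eq_div_iff (by exact_mod_cast hm)]
    linear_combination r3

end Pool.Agent.T2H95.NJ
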