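import Pool.Agent.X39.Near.SchF
import Pool.Agent.T2H95.NJ.Ode

/-!
# Two algebraic functions `τ_0`, `τ_1` with algebraically dependent `j (τ_0)`, `j (τ_1)` have the same Schwarzian
derivative
-/

set_option autoImplicit false

open Filter Topology MvPolynomial

noncomputable section

namespace Pool.Agent.T2H95.NJ

open Pool.Agent.Y685 Pool.Agent.Y776 Pool.Agent.Y776.AxJ
open Pool.Agent.TH813.Rel (DF MK exists_derF bracket_mem)
open Pool.Agent.TH813.Ell (mem_cl_iff)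
open Pool.Agent.Y776.Fam (TS TS_countable Gn countable_Gn countable_zeros IndC exists_cf exists_notMem countable_fam
  AlgOver)
open Pool.Agent.Y776.Cv (FInd)
open Pool.Agent.X39.Near.Sch (Fl step S2 stab mem_of_eq bs fm)

variable {U : Set ℂ} {τ : Fin 2 → ℂ → ℂ} {G : Set ℂ}

/-- two algebraic functions -/
structure Pr (U : Set ℂ) (τ : Fin 2 → ℂ → ℂ) (G : Set ℂ) : Prop where
  op : IsOpen U
  conn : IsPreconnected U
  ne : U.Nonempty
  an : ∀ i, AnalyticOnNhd ℂ (τ i) U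
  im : ∀ i, ∀ z ∈ U, 0 < (τ i z).im
  nc : ∀ i c, ∃ z ∈ U, τ i z ≠ c
  gc : G.Countable
  alg : ∀ i, ∀ F : IntermediateField ℚ ℂ, G ⊆ F → AlgOver F U (τ i)

/-- the family with one point -/
theorem Pr.fmj (h : Pr U τ G) : Fmj U (fun _ : Fin 1 => τ 0) (fun k : Fin 0 => k.elim0) where
  op := h.op
  conn := h.conn
  ne := h.ne
  ta := fun _ => h.an 0
  im := fun _ => h.im 0
  nc := fun _ c => h.nc 0 c
  ji := fun i k hik => absurd (Subsingleton.elim i k) hik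
  wa := fun k => k.elim0
  wi := fun _ _ _ => Subsingleton.elim _ _

/-- three functions -/
def ys (τ : Fin 2 → ℂ → ℂ) (k : Fin 3) (z : ℂ) : ℂ :=
  ![h1 (τ 0 z), (LC (τ 0 z)).g₂, (LC (τ 0 z)).g₃] k

theorem Pr.b_an (h : Pr U τ G) (i : Fin 2) (m : Fin 5) : AnalyticOnNhd ℂ (fun z => b5 m (τ i z)) U := fun z hz =>
  AnalyticAt.fun_comp (g := b5 m) (f := τ i) (b5_an m _ (h.im i z hz)) (h.an i z hz)

theorem Pr.ys_an (h : Pr U τ G) (k : Fin 3) : AnalyticOnNhd ℂ (ys τ k) U := by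
  fin_cases k
  · exact h.b_an 0 1
  · exact h.b_an 0 2
  · exact h.b_an 0 3

/-- the constants -/
def Gc (G : Set ℂ) : Set ℂ := {(Real.pi : ℂ), be0} ∪ G

theorem Pr.Gc_countable (h : Pr U τ G) : (Gc G).Countable :=
  (by exact (Set.toFinite _).countable : ({(Real.pi : ℂ), be0} : Set ℂ).Countable).union h.gc

theorem Pr.loc (h : Pr U τ G) : ∀ t ∈ U, Pool.Agent.Y124.LocInd (ys τ) t := by
  refine loc_all h.fmj one_pos (y := ys τ) h.ys_an (by simp) (G := Gc G) h.Gc_countable ?_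
  intro F hG z hz htr k
  set K := clo F (insert z (Set.range fun k => ys τ k z)) with hK
  have mb : be0 ∈ K := base_clo (hG (Or.inl (Or.inr rfl)))
  have mO : ∀ k, ys τ k z ∈ K := fun k => subset_clo (Or.inr ⟨k, rfl⟩)
  have mn : ∀ n : ℕ, (n : ℂ) ∈ K := fun n => natCast_mem _ n
  have m2 := mn 2
  have m3 := mn 3
  have m12 := mn 12
  have m27 := mn 27
  have m1728 := mn 1728
  have m31104 := mn 31104
  push_cast at m2 m3 m12 m27 m1728 m31104
  have mt0 : τ 0 z ∈ K := by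
    have h1 := (h.alg 0 F (fun x hx => hG (Or.inr hx))).mem le_rfl hz htr
    exact clo_le (fun s hs => by
      rw [Set.mem_singleton_iff.1 hs]
      exact subset_clo (Or.inl rfl)) h1
  have mh : h1 (τ 0 z) ∈ K := mO 0
  have mg2 : (LC (τ 0 z)).g₂ ∈ K := mO 1
  have mg3 : (LC (τ 0 z)).g₃ ∈ K := mO 2
  have md : dlf (τ 0 z) ∈ K := sub_mem (pow_mem mg2 3) (mul_mem m27 (pow_mem mg3 2))
  rcases k with ⟨i, m⟩ | i | i
  · fin_cases m
    · exact mt0
    · exact div_mem (mul_mem m1728 (pow_mem mg2 3)) md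
    · show deriv jf (τ 0 z) ∈ _
      rw [deriv_j (h.im 0 z hz)]
      exact div_mem (mul_mem (mul_mem (mul_mem (neg_mem m31104) mb) (pow_mem mg2 2)) mg3) md
    · show deriv (deriv jf) (τ 0 z) ∈ _
      rw [deriv_dj (h.im 0 z hz)]
      exact div_mem (mul_mem (mul_mem (neg_mem m31104) (pow_mem mb 2)) (sub_mem (sub_mem
        (mul_mem (mul_mem (mul_mem m2 mh) (pow_mem mg2 2)) mg3)
        (mul_mem (mul_mem m12 mg2) (pow_mem mg3 2))) (div_mem (pow_mem mg2 4) m3))) md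
  · exact i.elim0
  · exact i.elim0

theorem Pr.bs_an (h : Pr U τ G) (o : Option (Fin 2 × Fin 5)) : AnalyticOnNhd ℂ (bs τ o) U := by
  rcases o with _ | ⟨i, m⟩
  · exact analyticOnNhd_id
  · exact h.b_an i m

theorem Pr.fm_an (h : Pr U τ G) (k : Option (Fin 2 × Fin 5) × ℕ) : AnalyticOnNhd ℂ (fm τ k) U :=
  (h.bs_an k.1).iterated_deriv k.2

/-- the names -/
def nm (o : Option (Fin 3)) : Option (Fin 2 × Fin 5) × ℕ :=
  (o.elim none fun k => some ((![(0, 1), (0, 2), (0, 3)] : Fin 3 → Fin 2 × Fin 5) k), 0)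

theorem nm_eq (τ : Fin 2 → ℂ → ℂ) (o : Option (Fin 3)) (z : ℂ) : fm τ (nm o) z = o.elim z fun k => ys τ k z := by
  rcases o with _ | k
  · rfl
  · fin_cases k <;> rfl

theorem Pr.find (h : Pr U τ G) : FInd U (fun o : Option (Fin 3) => fm τ (nm o)) := by
  intro Q hQ
  obtain ⟨t, ht⟩ := h.ne
  refine h.loc t ht Q ?_
  filter_upwards [h.op.mem_nhds ht] with z hz
  rw [← hQ z hz]
  congr 2
  funext o
  exact (nm_eq τ o z).symm

/-- generic points -/
structure Gp2 (U : Set ℂ) (τ : Fin 2 → ℂ → ℂ) (F : IntermediateField ℚ ℂ) (z₀ : ℂ) : Prop where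
  mem : z₀ ∈ U
  tr : ¬ IsAlgebraic F z₀
  gn : Gn U F (fm τ) z₀
  dt : ∀ i, deriv (τ i) z₀ ≠ 0
  t0 : ∀ i, τ i z₀ ∉ T0

theorem Pr.countable (h : Pr U τ G) {F : IntermediateField ℚ ℂ} (hF : (F : Set ℂ).Countable) :
    {z | z ∈ U ∧ ¬ Gp2 U τ F z}.Countable := by
  classical
  have hFc : Countable F := hF.to_subtype
  have c1 : {z : ℂ | IsAlgebraic F z}.Countable := Algebraic.countable F ℂ
  have c2 := countable_Gn h.conn hF h.fm_an
  have c3 := countable_fam h.conn (ι := Fin 2) (fun i => deriv (τ i)) (fun i => (h.an i).deriv)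
    (fun i => deriv_ne h.op h.conn h.ne (h.an i) (h.nc i))
  have c4 : {z | z ∈ U ∧ ∃ i, τ i z ∈ T0}.Countable := by
    refine (Set.countable_iUnion fun i : Fin 2 => T0_spec.1.biUnion (fun c _ =>
      countable_zeros h.conn (f := fun z => τ i z - c) ((h.an i).sub analyticOnNhd_const) ?_)).mono ?_
    · obtain ⟨z, hz, hzne⟩ := h.nc i c
      exact ⟨z, hz, sub_ne_zero.2 hzne⟩
    · rintro z ⟨hz, i, hT⟩
      exact Set.mem_iUnion.2 ⟨i, Set.mem_biUnion hT ⟨hz, sub_self _⟩⟩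
  refine (((c1.union c2).union c3).union c4).mono ?_
  rintro z ⟨hz, hg⟩
  by_contra hcon
  simp only [Set.mem_union, not_or] at hcon
  obtain ⟨⟨⟨d1, d2⟩, d3⟩, d4⟩ := hcon
  apply hg
  refine ⟨hz, d1, ?_, fun i h0 => d3 ⟨hz, i, h0⟩, fun i h0 => d4 ⟨hz, i, h0⟩⟩
  by_contra hG
  exact d2 ⟨hz, hG⟩

/-- the Schwarzian derivative in terms of the derivatives -/
theorem S2_eq {D : Derivation ℚ ℂ ℂ} {c c' c'' : ℂ} (hc : c ≠ 0) (h1 : D c = c') (h2 : D c' = c'') :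
    S2 D c = c'' / c - 3 / 2 * (c' / c) ^ 2 := by
  rw [S2, h1, ddiv _ _ hc, h1, h2]
  field_simp
  ring

/-- **the Schwarzian derivatives agree at generic points** -/
theorem Pr.sch (h : Pr U τ G) {Q : MvPolynomial (Fin 2) ℂ} (hne : Q ≠ 0)
    (hQ : ∀ z ∈ U, eval (fun m => jf (τ m z)) Q = 0) :
    {z | z ∈ U ∧ ¬ (deriv (deriv (deriv (τ 1))) z / deriv (τ 1) z - 3 / 2 * (deriv (deriv (τ 1)) z / deriv (τ 1) z) ^ 2 =
      deriv (deriv (deriv (τ 0))) z / deriv (τ 0) z -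
        3 / 2 * (deriv (deriv (τ 0)) z / deriv (τ 0) z) ^ 2)}.Countable := by
  classical
  obtain ⟨F, hFc, hF⟩ := exists_cf (T := Gc G ∪ (Q.coeffs : Set ℂ)) (h.Gc_countable.union (Finset.countable_toSet _))
  refine (h.countable hFc).mono ?_
  rintro z₀ ⟨hz₀, hns⟩
  refine ⟨hz₀, fun g => hns ?_⟩
  obtain ⟨D, hDF, hD⟩ := exists_Dinf h.op hz₀ h.fm_an g.gn
  have hder : ∀ {k : Option (Fin 2 × Fin 5)} {d : ℂ}, HasDerivAt (bs τ k) d z₀ → D (bs τ k z₀) = d := by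
    intro k d hd
    have h1 := hD (k, 0)
    exact h1.trans hd.deriv
  have hai := fun i => T0_spec.2 (τ i z₀) (h.im i z₀ hz₀) (g.t0 i)
  have hok : ∀ i, (QL (τ i z₀)).Ok := fun i => QL_ok (hai i)
  have hDb : D be0 = 0 := hDF _ (hF (Or.inl (Or.inl (Or.inr rfl))))
  have hDz : D z₀ = 1 := hder (k := none) (hasDerivAt_id z₀)
  have hτ : ∀ i, HasDerivAt (τ i) (deriv (τ i) z₀) z₀ := fun i => (h.an i z₀ hz₀).differentiableAt.hasDerivAt
  have hDt : ∀ i, D (τ i z₀) = deriv (τ i) z₀ := fun i => hder (k := some (i, 0)) (hτ i)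
  have hDt1 : ∀ i, D (deriv (τ i) z₀) = deriv (deriv (τ i)) z₀ := fun i => hD (some (i, 0), 1)
  have hDt2 : ∀ i, D (deriv (deriv (τ i)) z₀) = deriv (deriv (deriv (τ i))) z₀ := fun i => hD (some (i, 0), 2)
  have fl : ∀ i, Fl D be0 (h1 (τ i z₀)) (LC (τ i z₀)).g₂ (LC (τ i z₀)).g₃ (deriv (τ i) z₀) := fun i =>
    { b0 := be0_ne
      c0 := g.dt i
      p0 := (hok i).p0
      q0 := (hok i).q0
      d0 := (hok i).dl
      db := hDb
      dh := hder (k := some (i, 1)) ((der_h (h.im i z₀ hz₀)).comp z₀ (hτ i))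
      dp := hder (k := some (i, 2)) ((der_p (h.im i z₀ hz₀)).comp z₀ (hτ i))
      dq := hder (k := some (i, 3)) ((der_q (h.im i z₀ hz₀)).comp z₀ (hτ i)) }
  have hFC : F ≤ Cst D := fun x hx => hDF x hx
  -- the derivatives of the points
  have hc : ∀ i, deriv (τ i) z₀ ∈ clo (Cst D) {z₀} := by
    intro i
    have e1 := (h.alg i F (fun x hx => hF (Or.inl (Or.inr hx)))).mem hFC hz₀ g.tr
    have e2 := stab (D := D) (x := z₀) (by rw [hDz]; exact one_ne_zero) e1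
    rwa [hDz, div_one, hDt] at e2
  -- the invariants
  have hjg := fun i => gg_of_j (h.im i z₀ hz₀) (hok i)
  have hdg : ∀ i, D (gg (QL (τ i z₀))) ≠ 0 := fun i => (fl i).dg0
  have m1728 : ∀ S : Set ℂ, (1728 : ℂ) ∈ clo (Cst D) S := fun S => by
    have := natCast_mem (clo (Cst D) S) 1728
    exact_mod_cast this
  have m27 : ∀ S : Set ℂ, (27 : ℂ) ∈ clo (Cst D) S := fun S => by
    have := natCast_mem (clo (Cst D) S) 27
    exact_mod_cast this
  have hx0 : D (jf (τ 0 z₀)) ≠ 0 := by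
    intro h0
    apply hdg 0
    have hx : gg (QL (τ 0 z₀)) ∈ clo (Cst D) {jf (τ 0 z₀)} := by
      rw [(hjg 0).2.1]
      exact div_mem (mul_mem (m27 _) (subset_clo rfl)) (sub_mem (subset_clo rfl) (m1728 _))
    exact hx D (D_mem D) (fun s hs => by rw [Set.mem_singleton_iff.1 hs]; exact h0)
  obtain ⟨Q', hQ'⟩ : ∃ Q' : MvPolynomial (Fin 2) (Cst D), MvPolynomial.map (algebraMap (Cst D) ℂ) Q' = Q := by
    have h1 : Q ∈ Set.range (MvPolynomial.map (σ := Fin 2) (algebraMap (Cst D) ℂ)) := by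
      rw [mem_range_map_iff_coeffs_subset]
      intro c hc
      exact ⟨⟨c, hDF c (hF (Or.inr hc))⟩, rfl⟩
    exact h1
  have hQ0 : Q' ≠ 0 := by
    rintro rfl
    rw [map_zero] at hQ'
    exact hne hQ'.symm
  have hQe : aeval ![jf (τ 0 z₀), jf (τ 1 z₀)] Q' = 0 := by
    have h1 := hQ z₀ hz₀
    rw [← hQ', eval_map, ← aeval_def] at h1
    rw [← h1]
    congr 1
    apply congrArg
    funext m
    fin_cases m <;> rfl
  have hx1 := mem_of_eq (D_mem D) hx0 hQ0 hQe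
  have hg : gg (QL (τ 1 z₀)) ∈ clo (Cst D) {gg (QL (τ 0 z₀))} := by
    have s1 : jf (τ 0 z₀) ∈ clo (Cst D) {gg (QL (τ 0 z₀))} := by
      rw [(hjg 0).2.2]
      exact div_mem (mul_mem (m1728 _) (subset_clo rfl)) (sub_mem (subset_clo rfl) (m27 _))
    have s2 : jf (τ 1 z₀) ∈ clo (Cst D) {gg (QL (τ 0 z₀))} :=
      clo_le (fun s hs => by rw [Set.mem_singleton_iff.1 hs]; exact s1) hx1
    rw [(hjg 1).2.1]
    exact div_mem (mul_mem (m27 _) s2) (sub_mem s2 (m1728 _))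
  -- independence of the values over the constants
  have hind := const_indep (f := fm τ) (d := fun k => (k.1, k.2 + 1)) h.op h.conn hz₀ h.fm_an
    (fun k z _ => by rw [fm, fm, Function.iterate_succ_apply']) hD nm h.find
  have hv : ∀ o, fm τ (nm o) z₀ = o.elim z₀ fun k => ys τ k z₀ := fun o => nm_eq τ o z₀
  have hS : S2 D (deriv (τ 1) z₀) = S2 D (deriv (τ 0) z₀) := by
    refine step (fl 0) (fl 1) hDz (hc 0) (hc 1) hg ?_
    obtain ⟨δ, hδ, hv'⟩ := exists_derF (Cst D) hind (fun o => o.elim 0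
      ![0, 2 * (LC (τ 0 z₀)).g₂, 3 * (LC (τ 0 z₀)).g₃])
    refine ⟨δ, hδ, ?_, ?_, ?_⟩
    · have := hv' none
      rwa [hv none] at this
    · have := hv' (some 1)
      rwa [hv (some 1)] at this
    · have := hv' (some 2)
      rwa [hv (some 2)] at this
  rwa [S2_eq (g.dt 1) (hDt1 1) (hDt2 1), S2_eq (g.dt 0) (hDt1 0) (hDt2 0)] at hS

end Pool.Agent.T2H95.NJ
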